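import Pool.Agent.Lib.MP_562b47_mp.WO.Port
import Pool.Agent.Lib.MP_562b47_mp.LL.Defs

/-!
MP_562b47, LB-Scal: the integral over the port windows of a block is an integral over the cube.

`muc ι c = Measure.pi (unif c)`.  The map `v ↦ (v x)_{x ∈ L}` sends `muc ι c` to `muc L c`; the
restriction of `unif c` to the window `[lo, hi] ⊆ [-c, c]` of length `lw` is `lw / (4 c)` times the
image of `LL.mu1` (Lebesgue measure on `[-1, 1]`) under `v ↦ (lo + hi) / 2 + lw / 2 * v`.
-/

open MeasureTheory Matrix Finset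

set_option linter.unusedSectionVars false

namespace Pool.Agent.Lib.MP_562b47_mp.LB

open Pool.Agent.Lib.MP_562b47_mp.AL Pool.Agent.Lib.MP_562b47_mp Pool.Agent.Lib.MP_562b47_mp.WO

variable {ι 𝔅 : Type*} [Fintype ι] [DecidableEq ι] [Fintype 𝔅] [DecidableEq 𝔅] (S : Sys ι 𝔅)

/-- the potential at the port sites of `b` in terms of the scaled variables -/
noncomputable def sc (b : 𝔅) (v : S.L b → ℝ) (x : ι) : ℝ :=
  if h : x ∈ S.L b then (S.lo b x + S.hi b x) / 2 + S.lw (S.cls b) / 2 * v ⟨x, h⟩ else 0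

theorem measurable_sc (b : 𝔅) : Measurable (sc S b) := by
  refine measurable_pi_lambda _ fun x => ?_
  by_cases h : x ∈ S.L b
  · have e : (fun v : S.L b → ℝ => sc S b v x) =
        fun v => (S.lo b x + S.hi b x) / 2 + S.lw (S.cls b) / 2 * v ⟨x, h⟩ := by
      funext v
      unfold sc
      rw [dif_pos h]
    rw [e]
    exact ((measurable_pi_apply _).const_mul _).const_add _
  · have e : (fun v : S.L b → ℝ => sc S b v x) = fun _ => 0 := by
      funext v
      unfold sc
      rw [dif_neg h]
    rw [e]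
    exact measurable_const

/-- one variable -/
theorem unif_win {c lo hi lw : ℝ} (hc : 0 < c) (h1 : -c ≤ lo) (h2 : hi ≤ c) (hlw : 0 < lw)
    (h3 : hi - lo = lw) {s : Set ℝ} (hs : MeasurableSet s) :
    (unif c).restrict (Set.Icc lo hi) s =
      ENNReal.ofReal (lw / (4 * c)) * LL.mu1 ((fun v => (lo + hi) / 2 + lw / 2 * v) ⁻¹' s) := by
  have hf : Measurable fun v : ℝ => (lo + hi) / 2 + lw / 2 * v :=
    (measurable_id.const_mul _).const_add _
  have e1 : (unif c).restrict (Set.Icc lo hi) s =
      (ENNReal.ofReal (2 * c))⁻¹ * volume (s ∩ Set.Icc lo hi) := by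
    rw [Measure.restrict_apply hs]
    unfold unif
    rw [Measure.smul_apply, Measure.restrict_apply (hs.inter measurableSet_Icc), smul_eq_mul]
    congr 2
    rw [Set.inter_assoc, Set.inter_eq_left.mpr (Set.Icc_subset_Icc h1 h2)]
  have e2 : LL.mu1 ((fun v => (lo + hi) / 2 + lw / 2 * v) ⁻¹' s) =
      ENNReal.ofReal (2 / lw) * volume (s ∩ Set.Icc lo hi) := by
    unfold LL.mu1
    rw [Measure.restrict_apply (hf hs)]
    have e3 : (fun v => (lo + hi) / 2 + lw / 2 * v) ⁻¹' s ∩ Set.Icc (-1 : ℝ) 1 =
        (fun v => lw / 2 * v) ⁻¹' ((fun v => (lo + hi) / 2 + v) ⁻¹' (s ∩ Set.Icc lo hi)) := by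
      ext v
      simp only [Set.mem_inter_iff, Set.mem_preimage, Set.mem_Icc]
      constructor
      · rintro ⟨h4, h5, h6⟩
        refine ⟨h4, ?_, ?_⟩
        · nlinarith
        · nlinarith
      · rintro ⟨h4, h5, h6⟩
        refine ⟨h4, ?_, ?_⟩
        · by_contra h7
          push Not at h7
          nlinarith
        · by_contra h7
          push Not at h7
          nlinarith
    rw [e3, Real.volume_preimage_mul_left (by positivity), measure_preimage_add,
      abs_of_pos (by positivity), inv_div]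
  rw [e1, e2, ← mul_assoc]
  congr 1
  rw [← ENNReal.ofReal_mul (by positivity), ← ENNReal.ofReal_inv_of_pos (by linarith)]
  congr 1
  field_simp
  norm_num

/-- the law of the variables in the windows -/
theorem pi_win (b : 𝔅) :
    (Measure.pi fun x : S.L b => (unif S.c).restrict (Set.Icc (S.lo b x) (S.hi b x))) =
      ENNReal.ofReal (S.lw (S.cls b) / (4 * S.c)) ^ (S.L b).card •
        Measure.map (fun (v : S.L b → ℝ) (x : S.L b) =>
          (S.lo b x + S.hi b x) / 2 + S.lw (S.cls b) / 2 * v x) (LL.MU (S.L b)) := by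
  have hprob := unif_prob S.c_pos
  have hm : ∀ x : S.L b, Measurable fun v : ℝ =>
      (S.lo b x + S.hi b x) / 2 + S.lw (S.cls b) / 2 * v := fun x =>
    (measurable_id.const_mul _).const_add _
  have hM : Measurable (fun (v : S.L b → ℝ) (x : S.L b) =>
      (S.lo b x + S.hi b x) / 2 + S.lw (S.cls b) / 2 * v x) :=
    measurable_pi_lambda _ fun x => (hm x).comp (measurable_pi_apply x)
  have : IsFiniteMeasure LL.mu1 := by
    unfold LL.mu1
    infer_instance
  refine Measure.pi_eq fun s hs => ?_
  rw [Measure.smul_apply, Measure.map_apply hM (MeasurableSet.univ_pi hs), smul_eq_mul]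
  have e : (fun (v : S.L b → ℝ) (x : S.L b) =>
      (S.lo b x + S.hi b x) / 2 + S.lw (S.cls b) / 2 * v x) ⁻¹' Set.univ.pi s =
      Set.univ.pi fun x : S.L b => (fun v : ℝ =>
        (S.lo b x + S.hi b x) / 2 + S.lw (S.cls b) / 2 * v) ⁻¹' s x := by
    ext v
    simp [Set.mem_pi]
  rw [e]
  unfold LL.MU
  rw [Measure.pi_pi]
  have e2 : ENNReal.ofReal (S.lw (S.cls b) / (4 * S.c)) ^ (S.L b).card =
      ∏ _x : S.L b, ENNReal.ofReal (S.lw (S.cls b) / (4 * S.c)) := by
    rw [Finset.prod_const, Finset.card_univ, Fintype.card_coe]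
  rw [e2, ← Finset.prod_mul_distrib]
  refine Finset.prod_congr rfl fun x _ => ?_
  exact (unif_win S.c_pos (S.lo_ge b x) (S.hi_le b x) (S.lw_pos _) (S.lw_eq b x x.2) (hs x)).symm

/-- restriction of the coordinates -/
theorem map_res {c : ℝ} (hc : 0 < c) (T : Finset ι) :
    MeasurePreserving (fun (U : ι → ℝ) (x : T) => U x) (muc ι c)
      (Measure.pi fun _ : T => unif c) := by
  have hprob := unif_prob hc
  have hm : Measurable (fun (U : ι → ℝ) (x : T) => U x) :=
    measurable_pi_lambda _ fun x => measurable_pi_apply _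
  refine ⟨hm, ?_⟩
  symm
  refine Measure.pi_eq fun s hs => ?_
  rw [Measure.map_apply hm (MeasurableSet.univ_pi hs)]
  have e : (fun (U : ι → ℝ) (x : T) => U x) ⁻¹' Set.univ.pi s =
      Set.univ.pi fun i => if h : i ∈ T then s ⟨i, h⟩ else Set.univ := by
    ext U
    simp only [Set.mem_preimage, Set.mem_pi, Set.mem_univ, true_imp_iff, Subtype.forall]
    constructor
    · intro h i
      by_cases hi : i ∈ T
      · rw [dif_pos hi]; exact h i hi
      · rw [dif_neg hi]; exact Set.mem_univ _
    · intro h i hi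
      have := h i
      rwa [dif_pos hi] at this
  rw [e]
  unfold muc
  rw [Measure.pi_pi]
  have e1 : ∏ i ∈ T, unif c (if h : i ∈ T then s ⟨i, h⟩ else Set.univ) =
      ∏ i, unif c (if h : i ∈ T then s ⟨i, h⟩ else Set.univ) := by
    refine Finset.prod_subset (subset_univ T) fun i _ hi => ?_
    rw [dif_neg hi]
    exact measure_univ
  rw [← e1, ← Finset.prod_coe_sort]
  refine Finset.prod_congr rfl fun x _ => ?_
  rw [dif_pos x.2]

open Classical in
/-- the integrand in terms of the restriction -/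
theorem win_eq (b : 𝔅) (V : ι → ℝ) (G : (ι → ℝ) → ℝ) (U : ι → ℝ) :
    (if S.win b U then G (mix (S.L b) U V) else 0) =
      (Set.univ.pi fun x : S.L b => Set.Icc (S.lo b x) (S.hi b x)).indicator
        (fun v : S.L b → ℝ => G (mix (S.L b) (fun x => if h : x ∈ S.L b then v ⟨x, h⟩ else 0) V))
        (fun x : S.L b => U x) := by
  rw [Set.indicator_apply]
  have e : S.win b U ↔ (fun x : S.L b => U x) ∈
      Set.univ.pi fun x : S.L b => Set.Icc (S.lo b x) (S.hi b x) := by
    unfold Sys.win
    simp only [Set.mem_pi, Set.mem_univ, true_implies, Subtype.forall]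
  by_cases h : S.win b U
  · rw [if_pos h, if_pos (e.mp h)]
    congr 1
    funext x
    unfold mix
    by_cases hx : x ∈ S.L b
    · simp only [if_pos hx, dif_pos hx]
    · rw [if_neg hx, if_neg hx]
  · rw [if_neg h, if_neg (fun h' => h (e.mpr h'))]

theorem measurable_ext (T : Finset ι) (V : ι → ℝ) : Measurable fun v : T → ℝ =>
    mix T (fun x => if h : x ∈ T then v ⟨x, h⟩ else 0) V := by
  refine measurable_pi_lambda _ fun x => ?_
  unfold mix
  by_cases hx : x ∈ T
  · simp only [if_pos hx, dif_pos hx]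
    exact measurable_pi_apply _
  · simp only [if_neg hx]
    exact measurable_const

theorem mix_sc (b : 𝔅) (V : ι → ℝ) (v : S.L b → ℝ) :
    mix (S.L b) (fun x => if h : x ∈ S.L b then
      ((S.lo b x + S.hi b x) / 2 + S.lw (S.cls b) / 2 * v ⟨x, h⟩) else 0) V =
      mix (S.L b) (sc S b v) V := rfl

open Classical in
/-- integration over the windows = integration over the cube -/
theorem integral_win (b : 𝔅) (V : ι → ℝ) {G : (ι → ℝ) → ℝ} (hG : Measurable G) :
    ∫ U, (if S.win b U then G (mix (S.L b) U V) else 0) ∂(muc ι S.c) =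
      (S.lw (S.cls b) / (4 * S.c)) ^ (S.L b).card *
        ∫ v, G (mix (S.L b) (sc S b v) V) ∂(LL.MU (S.L b)) := by
  have hprob := unif_prob S.c_pos
  have hM : Measurable (fun (v : S.L b → ℝ) (x : S.L b) =>
      (S.lo b x + S.hi b x) / 2 + S.lw (S.cls b) / 2 * v x) :=
    measurable_pi_lambda _ fun x => ((measurable_pi_apply x).const_mul _).const_add _
  have hW : MeasurableSet (Set.univ.pi fun x : S.L b => Set.Icc (S.lo b x) (S.hi b x)) :=
    MeasurableSet.univ_pi fun _ => measurableSet_Icc
  have hF : Measurable (fun v : S.L b → ℝ =>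
      G (mix (S.L b) (fun x => if h : x ∈ S.L b then v ⟨x, h⟩ else 0) V)) :=
    hG.comp (measurable_ext (S.L b) V)
  simp_rw [win_eq S b V G]
  have h1 := (map_res (ι := ι) S.c_pos (S.L b)).map_eq
  have h2 : ∫ U, (Set.univ.pi fun x : S.L b => Set.Icc (S.lo b x) (S.hi b x)).indicator
        (fun v : S.L b → ℝ => G (mix (S.L b) (fun x => if h : x ∈ S.L b then v ⟨x, h⟩ else 0) V))
        (fun x : S.L b => U x) ∂(muc ι S.c) =
      ∫ v, (Set.univ.pi fun x : S.L b => Set.Icc (S.lo b x) (S.hi b x)).indicator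
        (fun v : S.L b → ℝ => G (mix (S.L b) (fun x => if h : x ∈ S.L b then v ⟨x, h⟩ else 0) V)) v
        ∂(Measure.pi fun _ : S.L b => unif S.c) := by
    rw [← h1, integral_map (map_res (ι := ι) S.c_pos (S.L b)).measurable.aemeasurable
      (hF.indicator hW).aestronglyMeasurable]
  rw [h2, integral_indicator hW, Measure.restrict_pi_pi, pi_win, integral_smul_measure,
    integral_map hM.aemeasurable hF.aestronglyMeasurable, smul_eq_mul, ENNReal.toReal_pow,
    ENNReal.toReal_ofReal (div_nonneg (S.lw_pos _).le (by linarith [S.c_pos]))]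
  rfl

open Classical in
/-- integrability is preserved -/
theorem integrable_win (b : 𝔅) (V : ι → ℝ) {G : (ι → ℝ) → ℝ} (hG : Measurable G)
    (h : Integrable (fun U => if S.win b U then G (mix (S.L b) U V) else 0) (muc ι S.c)) :
    Integrable (fun v => G (mix (S.L b) (sc S b v) V)) (LL.MU (S.L b)) := by
  have hprob := unif_prob S.c_pos
  have hM : Measurable (fun (v : S.L b → ℝ) (x : S.L b) =>
      (S.lo b x + S.hi b x) / 2 + S.lw (S.cls b) / 2 * v x) :=
    measurable_pi_lambda _ fun x => ((measurable_pi_apply x).const_mul _).const_add _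
  have hW : MeasurableSet (Set.univ.pi fun x : S.L b => Set.Icc (S.lo b x) (S.hi b x)) :=
    MeasurableSet.univ_pi fun _ => measurableSet_Icc
  have hF : Measurable (fun v : S.L b → ℝ =>
      G (mix (S.L b) (fun x => if h : x ∈ S.L b then v ⟨x, h⟩ else 0) V)) :=
    hG.comp (measurable_ext (S.L b) V)
  simp_rw [win_eq S b V G] at h
  have h2 := (map_res (ι := ι) S.c_pos (S.L b)).integrable_comp
    (g := (Set.univ.pi fun x : S.L b => Set.Icc (S.lo b x) (S.hi b x)).indicator
        (fun v : S.L b → ℝ => G (mix (S.L b) (fun x => if h : x ∈ S.L b then v ⟨x, h⟩ else 0) V)))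
    (hF.indicator hW).aestronglyMeasurable
  have h3 := h2.mp h
  rw [integrable_indicator_iff hW, IntegrableOn, Measure.restrict_pi_pi, pi_win] at h3
  have h4 : Integrable (fun v : S.L b → ℝ =>
      G (mix (S.L b) (fun x => if h : x ∈ S.L b then v ⟨x, h⟩ else 0) V))
      (Measure.map (fun (v : S.L b → ℝ) (x : S.L b) =>
          (S.lo b x + S.hi b x) / 2 + S.lw (S.cls b) / 2 * v x) (LL.MU (S.L b))) := by
    refine (integrable_smul_measure ?_ ?_).mp h3
    · refine pow_ne_zero _ ?_
      rw [Ne, ENNReal.ofReal_eq_zero, not_le]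
      exact div_pos (S.lw_pos _) (by linarith [S.c_pos])
    · exact ENNReal.pow_ne_top ENNReal.ofReal_ne_top
  exact (integrable_map_measure hF.aestronglyMeasurable hM.aemeasurable).mp h4

end Pool.Agent.Lib.MP_562b47_mp.LB
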