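import Pool.Agent.Lib.MP_562b47_mp.LB.One
import Pool.Agent.Lib.MP_562b47_mp.LB.Scal
import Pool.Agent.Lib.MP_562b47_mp.WO.Thin

/-!
MP_562b47, THE BRIDGE from lemma (L') to the worlds: in the world where class `m` is thinned with
probability `t`, the total error of the trades of class `m` is at most
`2 e Dw + 8800 dm ∑_b P(b complete)`, `e = 281600 n^-κ + 15120 (G n^C / r)³`.
-/

set_option autoImplicit false

open MeasureTheory Matrix Finset

set_option linter.unusedSectionVars false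

namespace Pool.Agent.Lib.MP_562b47_mp.LB

open Pool.Agent.Lib.MP_562b47_mp.AL Pool.Agent.Lib.MP_562b47_mp Pool.Agent.Lib.MP_562b47_mp.WO
open Pool.Agent.Lib.MP_562b47_mp.EC

/-- hypotheses of the bridge, class `m` -/
structure BHyp {ι 𝔅 κ' : Type*} [Fintype ι] [DecidableEq ι] [Fintype 𝔅] [DecidableEq 𝔅] [Fintype κ']
    (S : Sys ι 𝔅) (A : Matrix ι ι ℝ) (ξ : κ' → ι → ℝ) (m : ℕ) (a dm : ℝ) (n : ℕ) : Prop where
  /-- the centre is coupled only to the inner block -/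
  sepw : ∀ b, S.cls b = m → ∀ y, y ∉ S.inn b → y ≠ S.w b → A (S.w b) y = 0
  /-- no port site carries more than (about) half of the coupling: `gg * lw = 2 ∑ ph²` -/
  phc : ∀ b V, S.cls b = m → S.comp b V → ∀ l ∈ S.L b, ‖phc A (S.inn b) (S.w b)
    (fun x => (V x : ℂ) - (a : ℂ) * Complex.I) l‖ ^ 2 ≤ S.gg A b V * S.lw m
  /-- the background does not change the resonant value too much -/
  zec : ∀ b V, S.cls b = m → S.comp b V → ‖zec A (S.inn b) (S.w b)
    (fun x => (V x : ℂ) - (a : ℂ) * Complex.I) - (S.ze A b V : ℂ)‖ + a ≤ S.gg A b V / 8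
  diam : ∀ b, S.cls b = m → ∀ x ∈ S.Q b, ff ξ x (S.w b) ≤ dm
  dm_nonneg : 0 ≤ dm
  two_le : 2 ≤ n
  card : ∀ b, S.cls b = m → (S.L b).card ≤ n

section geo

variable {ι 𝔅 κ' : Type*} [Fintype ι] [DecidableEq ι] [Fintype 𝔅] [DecidableEq 𝔅] [Fintype κ']
  {S : Sys ι 𝔅} {A : Matrix ι ι ℝ} {ξ : κ' → ι → ℝ} {m n : ℕ} {a dm : ℝ}

/-- the sites outside the block -/
def out (S : Sys ι 𝔅) (b : 𝔅) : Finset ι := univ.filter fun x => x ∉ S.Q b

theorem mem_out {b : 𝔅} {x : ι} : x ∈ out S b ↔ x ∉ S.Q b := by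
  unfold out
  simp

theorem geo (hS : Good S A) (hB : BHyp S A ξ m a dm n) {b : 𝔅} (hm : S.cls b = m) :
    Geo A (S.inn b) (S.L b) (out S b) (S.w b) where
  symm := hS.symm
  wT := fun h => ((S.mem_inn).mp h).1 rfl
  wI := S.w_not b
  wO := fun h => (mem_out.mp h) (S.w_mem b)
  TI := fun x hx => ((S.mem_inn).mp hx).2.2
  TO := fun x hx h => (mem_out.mp h) ((S.mem_inn).mp hx).2.1
  IO := fun x hx h => (mem_out.mp h) (S.L_sub b hx)
  all := by
    intro x
    by_cases h1 : x = S.w b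
    · exact Or.inl h1
    by_cases h2 : x ∈ S.L b
    · exact Or.inr (Or.inr (Or.inl h2))
    by_cases h3 : x ∈ S.Q b
    · exact Or.inr (Or.inl ((S.mem_inn).mpr ⟨h1, h3, h2⟩))
    · exact Or.inr (Or.inr (Or.inr (mem_out.mpr h3)))
  sep := fun x hx y hy => hS.sep b x
    ((S.mem_qi).mpr ((S.mem_inn).mp hx).2) y (mem_out.mp hy)
  sepw := hB.sepw b hm

theorem sc_eq (S : Sys ι 𝔅) (b : 𝔅) (v : S.L b → ℝ) :
    sc S b v = Uv (S.L b) (S.lw (S.cls b)) (fun x => (S.lo b x + S.hi b x) / 2) v := rfl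

/-- the cube is mapped into the windows -/
theorem win_sc (S : Sys ι 𝔅) (b : 𝔅) {v : S.L b → ℝ} (hv : ∀ x, v x ∈ Set.Icc (-1 : ℝ) 1) :
    S.win b (sc S b v) := by
  intro x hx
  have h1 : sc S b v x = (S.lo b x + S.hi b x) / 2 + S.lw (S.cls b) / 2 * v ⟨x, hx⟩ := by
    unfold sc
    rw [dif_pos hx]
  have h2 := S.lw_eq b x hx
  have h3 := S.lw_pos (S.cls b)
  obtain ⟨h4, h5⟩ := hv ⟨x, hx⟩
  rw [h1]
  constructor <;> nlinarith

theorem ae_cube (I : Finset ι) : ∀ᵐ v ∂(LL.MU I), ∀ x, v x ∈ Set.Icc (-1 : ℝ) 1 := by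
  rw [MU_eq]
  have hm : MeasurableSet (Set.pi Set.univ fun _ : I => Set.Icc (-1 : ℝ) 1) :=
    MeasurableSet.univ_pi fun _ => measurableSet_Icc
  filter_upwards [ae_restrict_mem hm] with v hv
  exact fun x => hv x (Set.mem_univ x)

/-- the world as a function of the scaled port variables -/
theorem uA_sc {Ac : Finset 𝔅} {V : ι → ℝ} {b : 𝔅} (hA : Ac ⊆ S.Comp V) (hb : b ∈ Ac)
    {v : S.L b → ℝ} (hv : ∀ x, v x ∈ Set.Icc (-1 : ℝ) 1) :
    S.uA A m a Ac (mix (S.L b) (sc S b v) V) = uI (S.L b) a (S.uA A m a Ac V) (Uv (S.L b)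
      (S.lw (S.cls b)) (fun x => (S.lo b x + S.hi b x) / 2) v) := by
  rw [S.uA_mix hA (hA hb) (win_sc S b hv), sc_eq]
  rfl

end geo

open Classical in
/-- THE BRIDGE, one block -/
theorem block_le (κ : ℕ) : ∃ C : ℕ, ∀ {ι 𝔅 κ' : Type} [Fintype ι] [DecidableEq ι] [Fintype 𝔅]
    [DecidableEq 𝔅] [Fintype κ'] {S : Sys ι 𝔅} {A : Matrix ι ι ℝ} {ξ : κ' → ι → ℝ} {m n : ℕ}
    {a dm G : ℝ}, Good S A → BHyp S A ξ m a dm n → 0 < a →
    (∀ b V, S.cls b = m → S.comp b V → S.gg A b V ≤ G) → 6 * (G * (n : ℝ) ^ C) ≤ S.r →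
    ∀ {Ac : Finset 𝔅} {V : ι → ℝ} {b : 𝔅}, Ac ⊆ S.Comp V → b ∈ Ac → S.cls b = m →
    ∫ U, (if S.win b U then S.err A ξ m a b Ac (mix (S.L b) U V) else 0) ∂(muc ι S.c) ≤
      ∫ U, (if S.win b U then (281600 * ((n : ℝ) ^ κ)⁻¹ + 15120 * (G * (n : ℝ) ^ C / S.r) ^ 3) *
        share A ξ (S.uA A m a Ac (mix (S.L b) U V)) (S.w b) + 8800 * dm else 0) ∂(muc ι S.c) := by
  obtain ⟨C, hC⟩ := one_block κ
  refine ⟨C, ?_⟩
  intro ι 𝔅 κ' _ _ _ _ _ S A ξ m n a dm G hS hB ha hG hsm Ac V b hA hb hm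
  have hc : S.comp b V := (S.mem_Comp).mp (hA hb)
  have hg := hS.g_pos b V hc
  have hgr := hS.g_le b V hc
  have hgG := hG b V hm hc
  set g := S.gg A b V with hgd
  set u := S.uA A m a Ac V with hud
  have hu : Loss u := S.uA_loss hS ha hA
  have hn1 : (1 : ℝ) ≤ (n : ℝ) := by
    have := hB.two_le
    exact_mod_cast (by omega : 1 ≤ n)
  have hnC : (0 : ℝ) < (n : ℝ) ^ C := by positivity
  have hL : ∀ x ∈ S.inn b, u x = (V x : ℂ) - (a : ℂ) * Complex.I := by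
    intro x hx
    have hx' := (S.mem_inn).mp hx
    rw [hud, S.uA_inn hA (hA hb) hx'.2.1 hx'.1, S.bk_low (hA hb) hm.le hx'.2.1]
  have hphc : ∀ l ∈ S.L b, ‖phc A (S.inn b) (S.w b) u l‖ ^ 2 ≤ g * S.lw (S.cls b) := by
    intro l hl
    rw [phc_congr A (S.w b) hL l, hm]
    exact hB.phc b V hm hc l hl
  have hzec : ‖zec A (S.inn b) (S.w b) u - (S.ze A b V : ℂ)‖ + a ≤ g / 8 := by
    rw [zec_congr A (S.w b) hL]
    exact hB.zec b V hm hc
  have huw : u (S.w b) = (S.ze A b V : ℂ) - ((g + a : ℝ) : ℂ) * Complex.I :=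
    S.uA_w hA hb hm.le
  have hsm' : 6 * (g * (n : ℝ) ^ C) ≤ S.r := by
    refine le_trans ?_ hsm
    gcongr
  have key := hC (geo hS hB hm) hu ha hg (S.lw_pos (S.cls b)) S.r_pos hgr n hB.two_le
    (hB.card b hm) hsm' hphc (S.ze A b V) hzec huw ξ dm hB.dm_nonneg
    (fun x hx => hB.diam b hm x ((S.mem_inn).mp hx).2.1) (fun x => (S.lo b x + S.hi b x) / 2)
  -- both sides as integrals over the cube
  have hM1 : Measurable (S.err A ξ m a b Ac) := S.measurable_err A ξ m a b Ac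
  set e : ℝ := 281600 * ((n : ℝ) ^ κ)⁻¹ + 15120 * (G * (n : ℝ) ^ C / S.r) ^ 3 with he
  have hM2 : Measurable fun V => e * share A ξ (S.uA A m a Ac V) (S.w b) + 8800 * dm :=
    ((measurable_share A ξ (fun x => S.measurable_uA A m a Ac x) (S.w b)).const_mul e).add_const _
  rw [integral_win S b V hM1, integral_win S b V (G := fun V =>
    e * share A ξ (S.uA A m a Ac V) (S.w b) + 8800 * dm) hM2]
  have hK : 0 ≤ (S.lw (S.cls b) / (4 * S.c)) ^ (S.L b).card := by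
    have h1 := S.lw_pos (S.cls b)
    have h2 := S.c_pos
    positivity
  refine mul_le_mul_of_nonneg_left ?_ hK
  have e1 : ∫ v, S.err A ξ m a b Ac (mix (S.L b) (sc S b v) V) ∂(LL.MU (S.L b)) =
      ∫ v, 8 * XX A ξ (uI (S.L b) a u (Uv (S.L b) (S.lw (S.cls b))
        (fun x => (S.lo b x + S.hi b x) / 2) v)) (S.w b) *
        ‖SL.Rt g S.r (-(yy A (uI (S.L b) a u (Uv (S.L b) (S.lw (S.cls b))
        (fun x => (S.lo b x + S.hi b x) / 2) v)) (S.w b) (S.ze A b V) a))‖ ∂(LL.MU (S.L b)) := by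
    refine integral_congr_ae ?_
    filter_upwards [ae_cube (S.L b)] with v hv
    unfold Sys.err Sys.yb
    rw [uA_sc hA hb hv, S.gg_mix, S.ze_mix]
  have e2 : ∫ v, (e * share A ξ (S.uA A m a Ac (mix (S.L b) (sc S b v) V)) (S.w b) +
      8800 * dm) ∂(LL.MU (S.L b)) = ∫ v, (e * share A ξ (uI (S.L b) a u (Uv (S.L b)
        (S.lw (S.cls b)) (fun x => (S.lo b x + S.hi b x) / 2) v)) (S.w b) +
      8800 * dm) ∂(LL.MU (S.L b)) := by
    refine integral_congr_ae ?_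
    filter_upwards [ae_cube (S.L b)] with v hv
    rw [uA_sc hA hb hv]
  rw [e1, e2]
  refine key.trans ?_
  have hsi : Integrable (fun v => share A ξ (uI (S.L b) a u (Uv (S.L b)
        (S.lw (S.cls b)) (fun x => (S.lo b x + S.hi b x) / 2) v)) (S.w b)) (LL.MU (S.L b)) :=
    integrable_of_continuous (continuous_share (geo hS hB hm) hu ha ξ _ _)
  refine integral_mono ((hsi.const_mul _).add (integrable_const _))
    ((hsi.const_mul _).add (integrable_const _)) fun v => ?_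
  have hsn := share_nonneg (A := A) ξ (loss_uI hu ha (S.L b) (Uv (S.L b)
        (S.lw (S.cls b)) (fun x => (S.lo b x + S.hi b x) / 2) v)) (S.w b)
  have hr := S.r_pos
  simp only [he]
  gcongr

/-- THE BRIDGE -/
theorem bridge (κ : ℕ) : ∃ C : ℕ, ∀ {ι 𝔅 κ' : Type} [Fintype ι] [DecidableEq ι] [Fintype 𝔅]
    [DecidableEq 𝔅] [Fintype κ'] {S : Sys ι 𝔅} {A : Matrix ι ι ℝ} {ξ : κ' → ι → ℝ} {m n : ℕ}
    {a dm G : ℝ}, Good S A → BHyp S A ξ m a dm n → 0 < a →
    0 ≤ G → (∀ b V, S.cls b = m → S.comp b V → S.gg A b V ≤ G) → 6 * (G * (n : ℝ) ^ C) ≤ S.r →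
    ∀ {t : ℝ}, 0 ≤ t → t ≤ 1 →
    S.Ex A (S.pim m t) (S.ers A ξ m a) ≤
      (563200 * ((n : ℝ) ^ κ)⁻¹ + 30240 * (G * (n : ℝ) ^ C / S.r) ^ 3) * S.Dw A ξ m t a +
        8800 * dm * ∑ b : 𝔅, if S.cls b = m then S.mu.real {V | S.comp b V} else 0 := by
  obtain ⟨C, hC⟩ := block_le κ
  refine ⟨C, ?_⟩
  intro ι 𝔅 κ' _ _ _ _ _ S A ξ m n a dm G hS hB ha hG0 hG hsm t h0 h1
  have hp : Adm (S.pim m t) := S.adm_pim m h0 h1
  have hn1 : (1 : ℝ) ≤ (n : ℝ) := by
    have := hB.two_le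
    exact_mod_cast (by omega : 1 ≤ n)
  set e : ℝ := 281600 * ((n : ℝ) ^ κ)⁻¹ + 15120 * (G * (n : ℝ) ^ C / S.r) ^ 3 with he
  have e0 : S.ers A ξ m a = fun Ac V => ∑ b : 𝔅, if b ∈ S.cm m Ac then
      S.err A ξ m a b Ac V else 0 := by
    funext Ac V
    exact S.cm_sum_eq m Ac _
  have e0' : S.shs A ξ m a = fun Ac V => ∑ b : 𝔅, if b ∈ S.cm m Ac then
      share A ξ (S.uA A m a Ac V) (S.w b) else 0 := by
    funext Ac V
    exact S.cm_sum_eq m Ac _
  have bE : ∀ b, Sys.Bdd S fun Ac V => if b ∈ S.cm m Ac then S.err A ξ m a b Ac V else 0 :=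
    fun b => S.bdd_err hS ξ m ha b
  have bS : ∀ b, Sys.Bdd S fun Ac V => if b ∈ S.cm m Ac then
      share A ξ (S.uA A m a Ac V) (S.w b) else 0 :=
    fun b => (S.bdd_share hS ξ m ha (S.w b)).ite S (fun Ac => b ∈ S.cm m Ac)
  have b1 : ∀ b, Sys.Bdd S fun Ac (_ : ι → ℝ) => if b ∈ S.cm m Ac then (1 : ℝ) else 0 :=
    fun b => (Sys.Bdd.const S 1).ite S (fun Ac => b ∈ S.cm m Ac)
  -- one block
  have one : ∀ b, S.Ex A (S.pim m t) (fun Ac V => if b ∈ S.cm m Ac then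
        S.err A ξ m a b Ac V else 0) ≤
      e * S.Ex A (S.pim m t) (fun Ac V => if b ∈ S.cm m Ac then
        share A ξ (S.uA A m a Ac V) (S.w b) else 0) +
      8800 * dm * S.Ex A (S.pim m t) (fun Ac _ => if b ∈ S.cm m Ac then (1 : ℝ) else 0) := by
    intro b
    rw [← S.Ex_mul, ← S.Ex_mul, ← S.Ex_add hS hp ((bS b).mul_const S e)
      ((b1 b).mul_const S (8800 * dm))]
    refine S.Ex_le_of_L hS hp (bE b) (((bS b).mul_const S e).add S
      ((b1 b).mul_const S (8800 * dm))) b ?_ ?_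
    · intro V Ac _ hb
      have hcm : b ∉ S.cm m Ac := fun h => hb ((S.mem_cm).mp h).1
      simp only [if_neg hcm, mul_zero, add_zero, le_refl]
    · intro V Ac hA hb
      by_cases hm : S.cls b = m
      · have hcm : b ∈ S.cm m Ac := (S.mem_cm).mpr ⟨hb, hm⟩
        simp only [if_pos hcm, mul_one]
        exact hC hS hB ha hG hsm hA hb hm
      · have hcm : b ∉ S.cm m Ac := fun h => hm ((S.mem_cm).mp h).2
        simp only [if_neg hcm, mul_zero, add_zero, ite_self, le_refl]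
  -- completeness
  have hcomp : ∀ b, S.Ex A (S.pim m t) (fun Ac _ => if b ∈ S.cm m Ac then (1 : ℝ) else 0) ≤
      if S.cls b = m then S.mu.real {V | S.comp b V} else 0 := by
    intro b
    have hms : MeasurableSet {V : ι → ℝ | S.comp b V} := S.measurableSet_comp b
    split_ifs with hm
    · rw [S.Ex_eq]
      have h2 : ∀ V, S.Ei A (S.pim m t) (fun Ac _ => if b ∈ S.cm m Ac then (1 : ℝ) else 0) V ≤
          ({V | S.comp b V} : Set (ι → ℝ)).indicator (fun _ => (1 : ℝ)) V := by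
        intro V
        by_cases hV : S.comp b V
        · rw [Set.indicator_of_mem (by exact hV)]
          refine (S.Ei_mono hS hp (F' := fun _ _ => 1) fun Ac _ => ?_).trans (S.Ei_const 1).le
          by_cases h : b ∈ S.cm m Ac
          · rw [if_pos h]
          · rw [if_neg h]; exact zero_le_one
        · rw [Set.indicator_of_notMem (by exact hV)]
          refine (S.Ei_mono hS hp (F' := fun _ _ => 0) fun Ac hA => ?_).trans (S.Ei_const 0).le
          rw [if_neg]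
          intro h
          exact hV ((S.mem_Comp).mp (hA ((S.mem_cm).mp h).1))
      refine (integral_mono (S.integrable_Ei hS hp (b1 b))
        ((integrable_const (1 : ℝ)).indicator hms) h2).trans (le_of_eq ?_)
      rw [integral_indicator hms, setIntegral_const, smul_eq_mul, mul_one]
    · have h3 : (fun (Ac : Finset 𝔅) (_ : ι → ℝ) => if b ∈ S.cm m Ac then (1 : ℝ) else 0) =
          fun _ _ => 0 := by
        funext Ac _
        rw [if_neg]
        exact fun h => hm ((S.mem_cm).mp h).2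
      rw [h3, S.Ex_const]
  have hsum := S.Ex_shs_le hS ξ m ha h0 h1
  rw [e0, S.Ex_sum hS hp univ _ fun b _ => bE b]
  rw [e0', S.Ex_sum hS hp univ _ fun b _ => bS b] at hsum
  have he0 : 0 ≤ e := by
    have := S.r_pos
    positivity
  calc ∑ b : 𝔅, S.Ex A (S.pim m t) (fun Ac V => if b ∈ S.cm m Ac then
        S.err A ξ m a b Ac V else 0)
      ≤ ∑ b : 𝔅, (e * S.Ex A (S.pim m t) (fun Ac V => if b ∈ S.cm m Ac then
        share A ξ (S.uA A m a Ac V) (S.w b) else 0) +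
      8800 * dm * S.Ex A (S.pim m t) (fun Ac _ => if b ∈ S.cm m Ac then (1 : ℝ) else 0)) :=
        Finset.sum_le_sum fun b _ => one b
    _ = e * ∑ b : 𝔅, S.Ex A (S.pim m t) (fun Ac V => if b ∈ S.cm m Ac then
        share A ξ (S.uA A m a Ac V) (S.w b) else 0) + 8800 * dm *
        ∑ b : 𝔅, S.Ex A (S.pim m t) (fun Ac _ => if b ∈ S.cm m Ac then (1 : ℝ) else 0) := by
        rw [Finset.sum_add_distrib, Finset.mul_sum, Finset.mul_sum]
    _ ≤ e * (2 * S.Dw A ξ m t a) + 8800 * dm *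
        ∑ b : 𝔅, (if S.cls b = m then S.mu.real {V | S.comp b V} else 0) := by
        have hd := hB.dm_nonneg
        refine add_le_add (mul_le_mul_of_nonneg_left hsum he0) ?_
        exact mul_le_mul_of_nonneg_left (Finset.sum_le_sum fun b _ => hcomp b) (by positivity)
    _ = _ := by rw [he]; ring

end Pool.Agent.Lib.MP_562b47_mp.LB
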