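import Pool.Agent.Lib.MP_562b47_mp.LL.Main
import Pool.Agent.Lib.MP_562b47_mp.LL.Meas
import Pool.Agent.Lib.MP_562b47_mp.SL.Tau

/-!
MP_562b47, LB-Core: lemma (L') applied to one block, in scaled variables.

`M = V + Ξ` on the cube, `TT = φᵀ M⁻¹ φ` with `Im TT ≥ -1/16`, `y = 2 g TT + ρ`, `|ρ| ≤ g / 8`,
`X = ∑ c_x |ψ_xᵀ M⁻¹ φ|²`.  The error `8 X |Rt(-y)|` of the trade is at most
`281600 n^-κ + 15120 (g n^C)³ / r³` times the share `2 (g + a) X / |y + i g|²`, in the mean over the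
cube.
-/

set_option autoImplicit false

open MeasureTheory Matrix Finset
open scoped ENNReal

namespace Pool.Agent.Lib.MP_562b47_mp.LB

open Pool.Agent.Lib.MP_562b47_mp

/-- the data of one block -/
structure Blk (ι : Type*) [Fintype ι] [DecidableEq ι] where
  Ξ : Matrix ι ι ℂ
  φ : ι → ℂ
  sym : Ξᵀ = Ξ
  phi_le : ∀ j, ‖φ j‖ ≤ 1
  det_ne : ∀ v : ι → ℝ, (LL.mt Ξ (LL.cc v)).det ≠ 0
  im : ∀ v : ι → ℝ, -(1 / 16) ≤ (φ ⬝ᵥ ((LL.mt Ξ (LL.cc v))⁻¹ *ᵥ φ)).im

namespace Blk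

variable {ι : Type*} [Fintype ι] [DecidableEq ι] (B : Blk ι)

/-- `φᵀ M⁻¹ φ` -/
noncomputable def TT (v : ι → ℝ) : ℂ := B.φ ⬝ᵥ ((LL.mt B.Ξ (LL.cc v))⁻¹ *ᵥ B.φ)

/-- `ψᵀ M⁻¹ φ` -/
noncomputable def FF (ψ : ι → ℂ) (v : ι → ℝ) : ℂ := ψ ⬝ᵥ ((LL.mt B.Ξ (LL.cc v))⁻¹ *ᵥ B.φ)

theorem im' (v : ι → ℝ) : -(1 / 16) ≤ (B.TT v).im := B.im v

theorem norm_ge (v : ι → ℝ) : 15 / 16 ≤ ‖B.TT v + Complex.I‖ := by
  have h1 := Complex.abs_im_le_norm (B.TT v + Complex.I)
  have h2 := le_abs_self (B.TT v + Complex.I).im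
  have h3 : (B.TT v + Complex.I).im = (B.TT v).im + 1 := by simp
  have h4 := B.im' v
  rw [h3] at h1 h2
  linarith

theorem norm_TT_le (v : ι → ℝ) : ‖B.TT v‖ ≤ 4 * ‖B.TT v + Complex.I‖ := by
  have h1 := B.norm_ge v
  have h2 : ‖B.TT v‖ ≤ ‖B.TT v + Complex.I‖ + 1 := by
    have := norm_sub_le (B.TT v + Complex.I) Complex.I
    simpa using this
  linarith

theorem norm_I_mul (v : ι → ℝ) : ‖1 - Complex.I * B.TT v‖ = ‖B.TT v + Complex.I‖ := by
  have : 1 - Complex.I * B.TT v = -Complex.I * (B.TT v + Complex.I) := by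
    linear_combination (1 : ℂ) * Complex.I_mul_I
  rw [this, norm_mul, norm_neg, Complex.norm_I, one_mul]

theorem pp_eq (v : ι → ℝ) : LL.bq B.φ B.φ (LL.mt B.Ξ (LL.cc v)) =
    (LL.mt B.Ξ (LL.cc v)).det * B.TT v := LL.bq_eq _ _ (B.det_ne v)

theorem De_eq (v : ι → ℝ) : (LL.mt B.Ξ (LL.cc v) - Complex.I • Matrix.vecMulVec B.φ B.φ).det =
    (LL.mt B.Ξ (LL.cc v)).det * (1 - Complex.I * B.TT v) := by
  rw [LL.det_sub_outer, B.pp_eq]
  ring

/-- the data of lemma (L') -/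
noncomputable def dat (ψ : ι → ℂ) : LL.Dat ι where
  Ξ := B.Ξ
  φ := B.φ
  ψ := ψ
  sym := B.sym
  phi_le := B.phi_le
  ne := by
    intro v
    rw [B.De_eq]
    refine mul_ne_zero (B.det_ne v) ?_
    rw [← norm_pos_iff, B.norm_I_mul]
    linarith [B.norm_ge v]
  le := by
    intro v
    rw [B.De_eq, B.pp_eq, norm_mul, norm_mul, B.norm_I_mul]
    have := B.norm_TT_le v
    have h := norm_nonneg (LL.mt B.Ξ (LL.cc v)).det
    calc ‖(LL.mt B.Ξ (LL.cc v)).det‖ * ‖B.TT v‖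
        ≤ ‖(LL.mt B.Ξ (LL.cc v)).det‖ * (4 * ‖B.TT v + Complex.I‖) :=
          mul_le_mul_of_nonneg_left this h
      _ = _ := by ring

theorem norm_pf (ψ : ι → ℂ) (v : ι → ℝ) :
    ‖(B.dat ψ).pf v‖ = ‖B.FF ψ v‖ / ‖B.TT v + Complex.I‖ := by
  have h1 := (B.dat ψ).norm_pf v
  have h2 : (B.dat ψ).qq (LL.cc v) = (LL.mt B.Ξ (LL.cc v)).det * B.FF ψ v :=
    LL.bq_eq _ _ (B.det_ne v)
  have h3 : (B.dat ψ).De (LL.cc v) = (LL.mt B.Ξ (LL.cc v)).det * (1 - Complex.I * B.TT v) := by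
    rw [(B.dat ψ).De_eq_det']
    exact B.De_eq v
  have h4 : 0 < ‖(LL.mt B.Ξ (LL.cc v)).det‖ := norm_pos_iff.mpr (B.det_ne v)
  rw [h1, h2, h3, norm_mul, norm_mul, B.norm_I_mul, mul_div_mul_left _ _ h4.ne']

/-- the bad event -/
def bd (b : ℝ) : Set (ι → ℝ) := {v | b ≤ ‖B.TT v‖}

theorem bd_eq (b : ℝ) (ψ : ι → ℂ) :
    {V : ι → ℝ | b * ‖(B.dat ψ).dl (LL.cc V)‖ ≤ ‖(B.dat ψ).pp (LL.cc V)‖} = B.bd b := by
  ext v
  have h1 : (B.dat ψ).dl (LL.cc v) = (LL.mt B.Ξ (LL.cc v)).det := rfl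
  have h2 : (B.dat ψ).pp (LL.cc v) = (LL.mt B.Ξ (LL.cc v)).det * B.TT v := B.pp_eq v
  have h4 : 0 < ‖(LL.mt B.Ξ (LL.cc v)).det‖ := norm_pos_iff.mpr (B.det_ne v)
  simp only [Set.mem_ofPred_eq, bd]
  rw [h1, h2, norm_mul, mul_comm b]
  exact mul_le_mul_iff_right₀ h4

/-! ### regularity -/

omit [Fintype ι] in
theorem continuous_mt (Ξ : Matrix ι ι ℂ) : Continuous fun v : ι → ℝ => LL.mt Ξ (LL.cc v) := by
  unfold LL.mt LL.cc
  refine Continuous.add ?_ continuous_const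
  refine continuous_matrix fun i j => ?_
  by_cases h : i = j
  · subst h
    simp only [diagonal_apply_eq]
    exact Complex.continuous_ofReal.comp (continuous_apply i)
  · simp only [diagonal_apply_ne _ h]
    exact continuous_const

theorem continuous_inv (i j : ι) : Continuous fun v : ι → ℝ => (LL.mt B.Ξ (LL.cc v))⁻¹ i j := by
  have h1 : ∀ v : ι → ℝ, (LL.mt B.Ξ (LL.cc v))⁻¹ i j =
      ((LL.mt B.Ξ (LL.cc v)).det)⁻¹ * (LL.mt B.Ξ (LL.cc v)).adjugate i j := by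
    intro v
    rw [Matrix.inv_def, Matrix.smul_apply, smul_eq_mul, Ring.inverse_eq_inv']
  simp_rw [h1]
  refine Continuous.mul ?_ ?_
  · exact ((continuous_mt B.Ξ).matrix_det).inv₀ B.det_ne
  · exact ((continuous_mt B.Ξ).matrix_adjugate).matrix_elem i j

theorem continuous_FF (ψ : ι → ℂ) : Continuous (B.FF ψ) := by
  unfold FF
  simp only [dotProduct, mulVec]
  refine continuous_finsetSum _ fun i _ => continuous_const.mul ?_
  exact continuous_finsetSum _ fun j _ => (B.continuous_inv i j).mul continuous_const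

theorem continuous_TT : Continuous B.TT := B.continuous_FF B.φ

end Blk

section

variable {ι : Type*} [Fintype ι]

instance : IsFiniteMeasure LL.mu1 := by
  unfold LL.mu1
  infer_instance

instance : IsFiniteMeasure (LL.MU ι) := by
  unfold LL.MU
  infer_instance

theorem MU_eq : LL.MU ι = (volume : Measure (ι → ℝ)).restrict
    (Set.pi Set.univ fun _ => Set.Icc (-1 : ℝ) 1) := by
  unfold LL.MU LL.mu1
  rw [volume_pi, Measure.restrict_pi_pi]

/-- continuous functions are integrable on the cube -/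
theorem integrable_of_continuous {f : (ι → ℝ) → ℝ} (hf : Continuous f) :
    Integrable f (LL.MU ι) := by
  rw [MU_eq]
  exact hf.continuousOn.integrableOn_compact (isCompact_univ_pi fun _ => isCompact_Icc)

end

/-- the real form of lemma (L') -/
theorem bad_le {ι : Type*} [Fintype ι] [DecidableEq ι] (B : Blk ι) {b ε : ℝ} (hε : 0 ≤ ε) {σ : Type*}
    (s : Finset σ) (c : σ → ℝ) (hc : ∀ x, 0 ≤ c x) (ψ : σ → ι → ℂ)
    (h : ∀ ψ : ι → ℂ, (B.dat ψ).nu (B.bd b) ≤ ENNReal.ofReal ε * (B.dat ψ).nu Set.univ) :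
    ∫ v in B.bd b, (∑ x ∈ s, c x * (‖B.FF (ψ x) v‖ ^ 2 / ‖B.TT v + Complex.I‖ ^ 2)) ∂(LL.MU ι) ≤
      ε * ∫ v, (∑ x ∈ s, c x * (‖B.FF (ψ x) v‖ ^ 2 / ‖B.TT v + Complex.I‖ ^ 2)) ∂(LL.MU ι) := by
  have hne : ∀ v, ‖B.TT v + Complex.I‖ ^ 2 ≠ 0 := fun v => by
    have := B.norm_ge v
    positivity
  have hcont : ∀ x, Continuous fun v => ‖B.FF (ψ x) v‖ ^ 2 / ‖B.TT v + Complex.I‖ ^ 2 := fun x =>
    ((B.continuous_FF (ψ x)).norm.pow 2).div ((B.continuous_TT.add continuous_const).norm.pow 2) hne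
  have hint : ∀ x, Integrable (fun v => ‖B.FF (ψ x) v‖ ^ 2 / ‖B.TT v + Complex.I‖ ^ 2) (LL.MU ι) :=
    fun x => integrable_of_continuous (hcont x)
  have key : ∀ x, ∫ v in B.bd b, ‖B.FF (ψ x) v‖ ^ 2 / ‖B.TT v + Complex.I‖ ^ 2 ∂(LL.MU ι) ≤
      ε * ∫ v, ‖B.FF (ψ x) v‖ ^ 2 / ‖B.TT v + Complex.I‖ ^ 2 ∂(LL.MU ι) := by
    intro x
    have h0 := h (ψ x)
    have hS : MeasurableSet (B.bd b) :=
      measurableSet_le measurable_const B.continuous_TT.norm.measurable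
    have e1 : ∀ v, (B.dat (ψ x)).wt v =
        ENNReal.ofReal (‖B.FF (ψ x) v‖ ^ 2 / ‖B.TT v + Complex.I‖ ^ 2) := by
      intro v
      unfold LL.Dat.wt
      rw [B.norm_pf, div_pow]
    unfold LL.Dat.nu at h0
    rw [withDensity_apply _ hS, withDensity_apply _ MeasurableSet.univ, Measure.restrict_univ] at h0
    simp_rw [e1] at h0
    rw [integral_eq_lintegral_of_nonneg_ae (Filter.Eventually.of_forall fun v => by positivity)
      (hcont x).aestronglyMeasurable, integral_eq_lintegral_of_nonneg_ae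
      (Filter.Eventually.of_forall fun v => by positivity) (hcont x).aestronglyMeasurable]
    have h5 : ∫⁻ v, ENNReal.ofReal (‖B.FF (ψ x) v‖ ^ 2 / ‖B.TT v + Complex.I‖ ^ 2) ∂(LL.MU ι) ≠ ⊤ := by
      have := (hint x).2
      rw [hasFiniteIntegral_iff_ofReal (Filter.Eventually.of_forall fun v => by positivity)] at this
      exact this.ne
    have h6 := ENNReal.toReal_mono (ENNReal.mul_ne_top ENNReal.ofReal_ne_top h5) h0
    rw [ENNReal.toReal_mul, ENNReal.toReal_ofReal hε] at h6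
    exact h6
  rw [integral_finsetSum _ fun x _ => ((hint x).integrableOn).const_mul (c x),
    integral_finsetSum _ fun x _ => (hint x).const_mul (c x), Finset.mul_sum]
  refine Finset.sum_le_sum fun x _ => ?_
  rw [integral_const_mul, integral_const_mul]
  calc c x * ∫ v in B.bd b, ‖B.FF (ψ x) v‖ ^ 2 / ‖B.TT v + Complex.I‖ ^ 2 ∂(LL.MU ι)
      ≤ c x * (ε * ∫ v, ‖B.FF (ψ x) v‖ ^ 2 / ‖B.TT v + Complex.I‖ ^ 2 ∂(LL.MU ι)) :=
        mul_le_mul_of_nonneg_left (key x) (hc x)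
    _ = _ := by ring

/-- `|y + i g|` and `2 g |TT + i|` are comparable -/
theorem compar {T ρ : ℂ} {g : ℝ} (hg : 0 < g) (hT : -(1 / 16) ≤ T.im) (hρ : ‖ρ‖ ≤ g / 8) :
    ‖2 * (g : ℂ) * T + ρ + g * Complex.I‖ ≤ 16 / 5 * g * ‖T + Complex.I‖ ∧
      2 * g * ‖T + Complex.I‖ ≤ 5 / 2 * ‖2 * (g : ℂ) * T + ρ + g * Complex.I‖ := by
  have h1 : 15 / 16 ≤ ‖T + Complex.I‖ := by
    have h1 := Complex.abs_im_le_norm (T + Complex.I)
    have h2 := le_abs_self (T + Complex.I).im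
    have h3 : (T + Complex.I).im = T.im + 1 := by simp
    rw [h3] at h1 h2
    linarith
  have hgn : ‖(g : ℂ)‖ = g := by rw [Complex.norm_real, Real.norm_of_nonneg hg.le]
  have e1 : ‖2 * (g : ℂ) * (T + Complex.I)‖ = 2 * g * ‖T + Complex.I‖ := by
    rw [norm_mul, norm_mul, hgn]; simp
  have e2 : ‖(g : ℂ) * Complex.I‖ = g := by rw [norm_mul, hgn, Complex.norm_I, mul_one]
  constructor
  · have h2 : 2 * (g : ℂ) * T + ρ + g * Complex.I =
        2 * (g : ℂ) * (T + Complex.I) + (ρ - g * Complex.I) := by ring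
    rw [h2]
    have h3 := norm_add_le (2 * (g : ℂ) * (T + Complex.I)) (ρ - g * Complex.I)
    have h4 := norm_sub_le ρ ((g : ℂ) * Complex.I)
    rw [e1] at h3
    rw [e2] at h4
    nlinarith
  · have h2 : 2 * (g : ℂ) * (T + Complex.I) =
        2 * (g : ℂ) * T + ρ + g * Complex.I - (ρ - g * Complex.I) := by ring
    have h3 := norm_sub_le (2 * (g : ℂ) * T + ρ + g * Complex.I) (ρ - g * Complex.I)
    rw [← h2, e1] at h3
    have h4 := norm_sub_le ρ ((g : ℂ) * Complex.I)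
    rw [e2] at h4
    have h5 : 3 / 4 * g ≤ ‖2 * (g : ℂ) * T + ρ + g * Complex.I‖ := by
      have h6 := Complex.abs_im_le_norm (2 * (g : ℂ) * T + ρ + g * Complex.I)
      have h7 := le_abs_self (2 * (g : ℂ) * T + ρ + g * Complex.I).im
      have h8 : (2 * (g : ℂ) * T + ρ + g * Complex.I).im = 2 * g * T.im + ρ.im + g := by
        have : (2 * (g : ℂ) * T).im = 2 * g * T.im := by
          have h : (2 * (g : ℂ)) = ((2 * g : ℝ) : ℂ) := by push_cast; ring
          rw [h, Complex.im_ofReal_mul]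
        rw [Complex.add_im, Complex.add_im, this]
        simp
      have h9 : |ρ.im| ≤ g / 8 := (Complex.abs_im_le_norm ρ).trans hρ
      have h10 := (abs_le.mp h9).1
      rw [h8] at h6 h7
      nlinarith
    nlinarith

/-- the core of the bridge -/
theorem core (κ : ℕ) : ∃ C : ℕ, ∀ (ι : Type) [Fintype ι] [DecidableEq ι] (B : Blk ι) (n : ℕ),
    2 ≤ n → Fintype.card ι ≤ n → ∀ (g a r : ℝ) (ρ : ℂ), 0 < g → 0 ≤ a → g ≤ r → ‖ρ‖ ≤ g / 8 →
    (∀ v, 0 < (2 * (g : ℂ) * B.TT v + ρ).im) → 6 * (g * (n : ℝ) ^ C) ≤ r →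
    ∀ (σ : Type) (s : Finset σ) (c : σ → ℝ) (ψ : σ → ι → ℂ), (∀ x, 0 ≤ c x) →
    ∫ v, 8 * (∑ x ∈ s, c x * ‖B.FF (ψ x) v‖ ^ 2) *
        ‖SL.Rt g r (-(2 * (g : ℂ) * B.TT v + ρ))‖ ∂(LL.MU ι) ≤
      (281600 * ((n : ℝ) ^ κ)⁻¹ + 15120 * (g * (n : ℝ) ^ C / r) ^ 3) *
        ∫ v, 2 * (g + a) * ((∑ x ∈ s, c x * ‖B.FF (ψ x) v‖ ^ 2) /
          ‖2 * (g : ℂ) * B.TT v + ρ + g * Complex.I‖ ^ 2) ∂(LL.MU ι) := by
  obtain ⟨C, hC⟩ := LL.main κ
  refine ⟨C, ?_⟩
  intro ι _ _ B n hn hcard g a r ρ hg ha hgr hρ hy hsm σ s c ψ hc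
  have hr : 0 < r := hg.trans_le hgr
  have hn1 : (1 : ℝ) ≤ (n : ℝ) := by exact_mod_cast (by omega : 1 ≤ n)
  set b : ℝ := (n : ℝ) ^ C with hb
  have hb1 : 1 ≤ b := one_le_pow₀ hn1
  set ε : ℝ := ((n : ℝ) ^ κ)⁻¹ with hε
  have hε0 : 0 ≤ ε := by positivity
  set y : (ι → ℝ) → ℂ := fun v => 2 * (g : ℂ) * B.TT v + ρ with hyd
  set X : (ι → ℝ) → ℝ := fun v => ∑ x ∈ s, c x * ‖B.FF (ψ x) v‖ ^ 2 with hX
  have hX0 : ∀ v, 0 ≤ X v := fun v => Finset.sum_nonneg fun x _ =>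
    mul_nonneg (hc x) (sq_nonneg _)
  have hyg : ∀ v, 0 < ‖y v + g * Complex.I‖ := by
    intro v
    rw [norm_pos_iff]
    intro h0
    have h1 := congrArg Complex.im h0
    have h2 := hy v
    simp only [Complex.add_im, Complex.mul_im, Complex.ofReal_re, Complex.I_im, mul_one,
      Complex.ofReal_im, Complex.I_re, mul_zero, add_zero, Complex.zero_im] at h1
    have h3 : (y v).im = (2 * (g : ℂ) * B.TT v + ρ).im := rfl
    linarith
  -- the share
  set sh : (ι → ℝ) → ℝ := fun v => 2 * (g + a) * (X v / ‖y v + g * Complex.I‖ ^ 2) with hsh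
  have hsh0 : ∀ v, 0 ≤ sh v := fun v => by
    have := hX0 v
    have := hyg v
    simp only [hsh]
    positivity
  have hXc : Continuous X :=
    continuous_finsetSum _ fun x _ => continuous_const.mul ((B.continuous_FF (ψ x)).norm.pow 2)
  have hyc : Continuous y := (continuous_const.mul B.continuous_TT).add continuous_const
  have hshc : Continuous sh := continuous_const.mul
    (hXc.div ((hyc.add continuous_const).norm.pow 2) fun v => (pow_pos (hyg v) 2).ne')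
  have hshi : Integrable sh (LL.MU ι) := integrable_of_continuous hshc
  have hS : MeasurableSet (B.bd b) :=
    measurableSet_le measurable_const B.continuous_TT.norm.measurable
  -- the normalised form
  set S1 : (ι → ℝ) → ℝ := fun v =>
    ∑ x ∈ s, c x * (‖B.FF (ψ x) v‖ ^ 2 / ‖B.TT v + Complex.I‖ ^ 2) with hS1
  have hTp : ∀ v, 0 < ‖B.TT v + Complex.I‖ := fun v => by linarith [B.norm_ge v]
  have hS1e : ∀ v, S1 v = X v / ‖B.TT v + Complex.I‖ ^ 2 := by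
    intro v
    simp only [hS1, hX, Finset.sum_div]
    exact Finset.sum_congr rfl fun x _ => by ring
  have hS1c : Continuous S1 := by
    have : S1 = fun v => X v / ‖B.TT v + Complex.I‖ ^ 2 := funext hS1e
    rw [this]
    exact hXc.div ((B.continuous_TT.add continuous_const).norm.pow 2)
      fun v => (pow_pos (hTp v) 2).ne'
  have hS1i : Integrable S1 (LL.MU ι) := integrable_of_continuous hS1c
  have hga : 0 < g + a := by linarith
  have hup : ∀ v, sh v ≤ 2 * (g + a) * (25 / (16 * g ^ 2)) * S1 v := by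
    intro v
    obtain ⟨_, h2⟩ := compar hg (B.im' v) hρ
    have h3 : (2 * g * ‖B.TT v + Complex.I‖) ^ 2 ≤ (5 / 2 * ‖y v + g * Complex.I‖) ^ 2 :=
      pow_le_pow_left₀ (by positivity) h2 2
    simp only [hsh]
    rw [hS1e]
    have h5 : 2 * (g + a) * (25 / (16 * g ^ 2)) * (X v / ‖B.TT v + Complex.I‖ ^ 2) =
        2 * (g + a) * (X v * 25 / (16 * g ^ 2 * ‖B.TT v + Complex.I‖ ^ 2)) := by
      have := hTp v
      field_simp
    rw [h5]
    refine mul_le_mul_of_nonneg_left ?_ (by positivity)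
    rw [div_le_div_iff₀ (pow_pos (hyg v) 2) (by have := hTp v; positivity)]
    have h4 : 16 * g ^ 2 * ‖B.TT v + Complex.I‖ ^ 2 ≤ 25 * ‖y v + g * Complex.I‖ ^ 2 := by
      nlinarith
    calc X v * (16 * g ^ 2 * ‖B.TT v + Complex.I‖ ^ 2) ≤ X v * (25 * ‖y v + g * Complex.I‖ ^ 2) :=
          mul_le_mul_of_nonneg_left h4 (hX0 v)
      _ = _ := by ring
  have hlo : ∀ v, 2 * (g + a) * (25 / (16 * g ^ 2)) * S1 v ≤ 16 * sh v := by
    intro v
    obtain ⟨h1, _⟩ := compar hg (B.im' v) hρ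
    have h3 : ‖y v + g * Complex.I‖ ^ 2 ≤ (16 / 5 * g * ‖B.TT v + Complex.I‖) ^ 2 :=
      pow_le_pow_left₀ (norm_nonneg _) h1 2
    simp only [hsh]
    rw [hS1e]
    have h5 : 2 * (g + a) * (25 / (16 * g ^ 2)) * (X v / ‖B.TT v + Complex.I‖ ^ 2) =
        2 * (g + a) * ((25 * X v) / (16 * g ^ 2 * ‖B.TT v + Complex.I‖ ^ 2)) := by
      have := hTp v
      field_simp
    have h6 : 16 * (2 * (g + a) * (X v / ‖y v + g * Complex.I‖ ^ 2)) =
        2 * (g + a) * (16 * X v / ‖y v + g * Complex.I‖ ^ 2) := by ring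
    rw [h5, h6]
    refine mul_le_mul_of_nonneg_left ?_ (by positivity)
    rw [div_le_div_iff₀ (by have := hTp v; positivity) (pow_pos (hyg v) 2)]
    have h7 : 25 * ‖y v + g * Complex.I‖ ^ 2 ≤ 256 * g ^ 2 * ‖B.TT v + Complex.I‖ ^ 2 := by
      nlinarith
    calc 25 * X v * ‖y v + g * Complex.I‖ ^ 2 = X v * (25 * ‖y v + g * Complex.I‖ ^ 2) := by ring
      _ ≤ X v * (256 * g ^ 2 * ‖B.TT v + Complex.I‖ ^ 2) := mul_le_mul_of_nonneg_left h7 (hX0 v)
      _ = _ := by ring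
  -- the bad event
  have hbad : ∫ v in B.bd b, sh v ∂(LL.MU ι) ≤ 16 * ε * ∫ v, sh v ∂(LL.MU ι) := by
    have h1 : ∫ v in B.bd b, sh v ∂(LL.MU ι) ≤
        ∫ v in B.bd b, 2 * (g + a) * (25 / (16 * g ^ 2)) * S1 v ∂(LL.MU ι) :=
      integral_mono hshi.integrableOn (hS1i.integrableOn.const_mul _) hup
    have h2 := bad_le B (b := b) hε0 s c hc ψ (by
      intro ψ'
      have h := hC ι (B.dat ψ') n hn hcard
      rw [B.bd_eq] at h
      exact h)
    have h1' : ∫ v in B.bd b, 2 * (g + a) * (25 / (16 * g ^ 2)) * S1 v ∂(LL.MU ι) =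
        2 * (g + a) * (25 / (16 * g ^ 2)) * ∫ v in B.bd b, S1 v ∂(LL.MU ι) :=
      integral_const_mul _ _
    have h3 : ∫ v, 2 * (g + a) * (25 / (16 * g ^ 2)) * S1 v ∂(LL.MU ι) ≤
        ∫ v, 16 * sh v ∂(LL.MU ι) := integral_mono (hS1i.const_mul _) (hshi.const_mul _) hlo
    have h3' : ∫ v, 2 * (g + a) * (25 / (16 * g ^ 2)) * S1 v ∂(LL.MU ι) =
        2 * (g + a) * (25 / (16 * g ^ 2)) * ∫ v, S1 v ∂(LL.MU ι) := integral_const_mul _ _
    have h3'' : ∫ v, 16 * sh v ∂(LL.MU ι) = 16 * ∫ v, sh v ∂(LL.MU ι) := integral_const_mul _ _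
    rw [h3', h3''] at h3
    calc ∫ v in B.bd b, sh v ∂(LL.MU ι)
        ≤ 2 * (g + a) * (25 / (16 * g ^ 2)) * ∫ v in B.bd b, S1 v ∂(LL.MU ι) := h1.trans h1'.le
      _ ≤ 2 * (g + a) * (25 / (16 * g ^ 2)) * (ε * ∫ v, S1 v ∂(LL.MU ι)) :=
          mul_le_mul_of_nonneg_left h2 (by positivity)
      _ = ε * (2 * (g + a) * (25 / (16 * g ^ 2)) * ∫ v, S1 v ∂(LL.MU ι)) := by ring
      _ ≤ ε * (16 * ∫ v, sh v ∂(LL.MU ι)) := mul_le_mul_of_nonneg_left h3 hε0
      _ = _ := by ring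
  -- pointwise
  set e2 : ℝ := 15120 * (g * b / r) ^ 3 with he2
  have he20 : 0 ≤ e2 := by positivity
  have hpt : ∀ v, 8 * X v * ‖SL.Rt g r (-(y v))‖ ≤
      (B.bd b).indicator (fun v => 17600 * sh v) v + e2 * sh v := by
    intro v
    have hs : (-(y v)).im < 0 := by
      have := hy v
      simp only [Complex.neg_im]
      have h3 : (y v).im = (2 * (g : ℂ) * B.TT v + ρ).im := rfl
      linarith
    by_cases hv : v ∈ B.bd b
    · rw [Set.indicator_of_mem hv]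
      have h1 := SL.Rt_le hg hr hgr hs
      have h2 : ‖y v + g * Complex.I‖ ≤ ‖-(y v)‖ + r := by
        refine (norm_add_le _ _).trans ?_
        rw [norm_neg, norm_mul, Complex.norm_I, mul_one, Complex.norm_real,
          Real.norm_of_nonneg hg.le]
        linarith
      have h3 : ‖SL.Rt g r (-(y v))‖ ≤ 4400 * g / ‖y v + g * Complex.I‖ ^ 2 := by
        refine h1.trans ?_
        apply div_le_div_of_nonneg_left (by positivity) (by have := hyg v; positivity)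
        exact pow_le_pow_left₀ (norm_nonneg _) h2 2
      have h4 : 8 * X v * ‖SL.Rt g r (-(y v))‖ ≤ 17600 * sh v := by
        have hX0' := hX0 v
        calc 8 * X v * ‖SL.Rt g r (-(y v))‖
            ≤ 8 * X v * (4400 * g / ‖y v + g * Complex.I‖ ^ 2) := by gcongr
          _ = 17600 * (2 * g * (X v / ‖y v + g * Complex.I‖ ^ 2)) := by ring
          _ ≤ 17600 * (2 * (g + a) * (X v / ‖y v + g * Complex.I‖ ^ 2)) := by
              gcongr
              linarith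
      have h5 := mul_nonneg he20 (hsh0 v)
      linarith
    · rw [Set.indicator_of_notMem hv, zero_add]
      have hT : ‖B.TT v‖ < b := by
        unfold Blk.bd at hv
        simpa using hv
      have hgn : ‖(g : ℂ)‖ = g := by rw [Complex.norm_real, Real.norm_of_nonneg hg.le]
      have hyv : ‖y v‖ ≤ 3 * (g * b) := by
        have h1 : ‖y v‖ ≤ ‖2 * (g : ℂ) * B.TT v‖ + ‖ρ‖ := norm_add_le _ _
        have h2 : ‖2 * (g : ℂ) * B.TT v‖ = 2 * g * ‖B.TT v‖ := by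
          rw [norm_mul, norm_mul, hgn]; simp
        rw [h2] at h1
        nlinarith
      have h1 := SL.Rt_small hg hr hgr hs (by rw [norm_neg]; linarith)
      rw [norm_neg] at h1
      have h2 : ‖y v + g * Complex.I‖ ≤ 4 * (g * b) := by
        refine (norm_add_le _ _).trans ?_
        rw [norm_mul, Complex.norm_I, mul_one, hgn]
        nlinarith
      have hX0' := hX0 v
      have hyg' := hyg v
      have h3 : ‖SL.Rt g r (-(y v))‖ ≤ 35 * g * (3 * (g * b)) / r ^ 3 := by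
        refine h1.trans ?_
        gcongr
      have h4 : ‖y v + g * Complex.I‖ ^ 2 ≤ (4 * (g * b)) ^ 2 :=
        pow_le_pow_left₀ (norm_nonneg _) h2 2
      have h5 : X v = X v / ‖y v + g * Complex.I‖ ^ 2 * ‖y v + g * Complex.I‖ ^ 2 := by
        field_simp
      have hq : 0 ≤ X v / ‖y v + g * Complex.I‖ ^ 2 := by positivity
      calc 8 * X v * ‖SL.Rt g r (-(y v))‖ ≤ 8 * X v * (35 * g * (3 * (g * b)) / r ^ 3) := by gcongr
        _ = 840 * g * (g * b) / r ^ 3 * (X v / ‖y v + g * Complex.I‖ ^ 2) *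
            ‖y v + g * Complex.I‖ ^ 2 := by
              nth_rw 1 [h5]
              ring
        _ ≤ 840 * g * (g * b) / r ^ 3 * (X v / ‖y v + g * Complex.I‖ ^ 2) *
            (4 * (g * b)) ^ 2 := by gcongr
        _ = 6720 * (g * b / r) ^ 3 * (2 * g * (X v / ‖y v + g * Complex.I‖ ^ 2)) := by
              field_simp
              ring
        _ ≤ 15120 * (g * b / r) ^ 3 * (2 * (g + a) * (X v / ‖y v + g * Complex.I‖ ^ 2)) := by
              gcongr
              · norm_num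
              · linarith
        _ = e2 * sh v := rfl
  have hfin : ∫ v, 8 * X v * ‖SL.Rt g r (-(y v))‖ ∂(LL.MU ι) ≤
      ∫ v, ((B.bd b).indicator (fun v => 17600 * sh v) v + e2 * sh v) ∂(LL.MU ι) := by
    refine integral_mono_of_nonneg (Filter.Eventually.of_forall fun v => ?_) ?_
      (Filter.Eventually.of_forall hpt)
    · have := hX0 v
      simp only [Pi.zero_apply]
      positivity
    · exact ((hshi.const_mul _).indicator hS).add (hshi.const_mul _)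
  refine hfin.trans ?_
  have h4 : ∫ v in B.bd b, 17600 * sh v ∂(LL.MU ι) = 17600 * ∫ v in B.bd b, sh v ∂(LL.MU ι) :=
    integral_const_mul _ _
  have h5 : ∫ v, e2 * sh v ∂(LL.MU ι) = e2 * ∫ v, sh v ∂(LL.MU ι) := integral_const_mul _ _
  rw [integral_add ((hshi.const_mul _).indicator hS) (hshi.const_mul _), integral_indicator hS,
    h4, h5]
  calc 17600 * ∫ v in B.bd b, sh v ∂(LL.MU ι) + e2 * ∫ v, sh v ∂(LL.MU ι)
      ≤ 17600 * (16 * ε * ∫ v, sh v ∂(LL.MU ι)) + e2 * ∫ v, sh v ∂(LL.MU ι) := by gcongr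
    _ = (281600 * ε + e2) * ∫ v, sh v ∂(LL.MU ι) := by ring

end Pool.Agent.Lib.MP_562b47_mp.LB
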