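import Pool.Agent.Lib.MP_562b47_mp.EC.Elim

/-!
MP_562b47, the bridge from lemma (L') (`LL.main`) to the worlds (`WO`): definitions.

A gadget with inner block `T`, port sites `I`, centre `w`; `O` = the other sites.  The potential is
`U x - a i` at the port sites (`U` real), `u x` elsewhere.
-/

open Matrix Finset

namespace Pool.Agent.Lib.MP_562b47_mp.LB

open Pool.Agent.Lib.MP_562b47_mp.AL Pool.Agent.Lib.MP_562b47_mp.EC

variable {ι : Type*} [Fintype ι] [DecidableEq ι]

/-- geometry of a gadget -/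
structure Geo (A : Matrix ι ι ℝ) (T I O : Finset ι) (w : ι) : Prop where
  symm : A.IsSymm
  wT : w ∉ T
  wI : w ∉ I
  wO : w ∉ O
  TI : ∀ x ∈ T, x ∉ I
  TO : ∀ x ∈ T, x ∉ O
  IO : ∀ x ∈ I, x ∉ O
  all : ∀ x, x = w ∨ x ∈ T ∨ x ∈ I ∨ x ∈ O
  /-- the inner block is not coupled to the rest -/
  sep : ∀ x ∈ T, ∀ y ∈ O, A x y = 0
  /-- the centre is coupled only to the inner block -/
  sepw : ∀ y, y ∉ T → y ≠ w → A w y = 0

/-- the potential: `U x - a i` at the port sites -/
noncomputable def uI (I : Finset ι) (a : ℝ) (u : ι → ℂ) (U : ι → ℝ) (x : ι) : ℂ :=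
  if x ∈ I then (U x : ℂ) - (a : ℂ) * Complex.I else u x

/-- the self energy at the port sites, minus the potential -/
noncomputable def X0 (A : Matrix ι ι ℝ) (T I O : Finset ι) (a : ℝ) (u : ι → ℂ) : Matrix I I ℂ :=
  Matrix.of fun x y => (A x y : ℂ) - (if x = y then (a : ℂ) * Complex.I else 0) -
    (∑ t, ∑ t', (A x t : ℂ) * RC A T u t t' * (A t' y : ℂ)) -
    ∑ t, ∑ t', (A x t : ℂ) * RC A O u t t' * (A t' y : ℂ)

/-- the response at `x` to the port site `y` -/
noncomputable def psi (A : Matrix ι ι ℝ) (I O : Finset ι) (u : ι → ℂ) (x : ι) (y : I) : ℂ :=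
  if x ∈ I then (if x = y then 1 else 0) else -∑ t, RC A O u x t * (A t y : ℂ)

end Pool.Agent.Lib.MP_562b47_mp.LB
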