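import Pool.Agent.Lib.MP_562b47_mp.LB.Defs

/-!
MP_562b47, LB-Lin: linear algebra of the bridge.
-/

open Matrix Finset

set_option linter.unusedSectionVars false

namespace Pool.Agent.Lib.MP_562b47_mp.LB

open Pool.Agent.Lib.MP_562b47_mp.AL Pool.Agent.Lib.MP_562b47_mp.EC

variable {ι : Type*} [Fintype ι] [DecidableEq ι] {A : Matrix ι ι ℝ} {T I O : Finset ι} {w : ι}
  {u : ι → ℂ} {a : ℝ}

theorem RC_symm (hA : A.IsSymm) (u : ι → ℂ) (x y : ι) : RC A T u x y = RC A T u y x := by
  unfold RC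
  by_cases hx : x ∈ T
  · by_cases hy : y ∈ T
    · rw [dif_pos hx, dif_pos hy, dif_pos hy, dif_pos hx, GM_symm (AT_symm hA)]
    · rw [dif_pos hx, dif_neg hy, dif_neg hy]
  · rw [dif_neg hx]
    by_cases hy : y ∈ T
    · rw [dif_pos hy, dif_neg hx]
    · rw [dif_neg hy]

/-- `H G = 1` on the block -/
theorem mul_RC (hA : A.IsSymm) (hu : ∀ x ∈ T, (u x).im < 0) {x z : ι} (hx : x ∈ T) (hz : z ∈ T) :
    ∑ y ∈ T, HM A u x y * RC A T u y z = if x = z then 1 else 0 := by
  have h := RC_mul hA hu hz hx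
  have e : ∀ y ∈ T, HM A u x y * RC A T u y z = RC A T u z y * HM A u y x := by
    intro y _
    have h1 : HM A u x y = HM A u y x := by
      have := congrFun (congrFun (HM_symm hA u) y) x
      rw [transpose_apply] at this
      exact this
    rw [h1, RC_symm hA u y z]
    ring
  rw [Finset.sum_congr rfl e, h]
  by_cases hxz : x = z
  · rw [if_pos hxz, if_pos hxz.symm]
  · rw [if_neg hxz, if_neg (Ne.symm hxz)]

/-- double sums over the block -/
theorem sum_RC (A : Matrix ι ι ℝ) (u : ι → ℂ) (g g' : ι → ℂ) :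
    ∑ y, ∑ y', g y * RC A T u y y' * g' y' = ∑ y ∈ T, ∑ y' ∈ T, g y * RC A T u y y' * g' y' := by
  rw [← Finset.sum_subset (subset_univ T)]
  · refine Finset.sum_congr rfl fun y _ => ?_
    rw [← Finset.sum_subset (subset_univ T)]
    intro y' _ hy'
    rw [RC_right A u y hy']
    ring
  · intro y _ hy
    refine Finset.sum_eq_zero fun y' _ => ?_
    rw [RC_left A u hy]
    ring

theorem X0_symm (h : Geo A T I O w) (a : ℝ) (u : ι → ℂ) : (X0 A T I O a u)ᵀ = X0 A T I O a u := by
  have key : ∀ (R : Finset ι) (x y : ι), ∑ t, ∑ t', (A x t : ℂ) * RC A R u t t' * (A t' y : ℂ) =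
      ∑ t, ∑ t', (A y t : ℂ) * RC A R u t t' * (A t' x : ℂ) := by
    intro R x y
    rw [Finset.sum_comm]
    refine Finset.sum_congr rfl fun t' _ => Finset.sum_congr rfl fun t _ => ?_
    rw [RC_symm h.symm u t t', h.symm.apply t' y, h.symm.apply t x]
    ring
  ext x y
  simp only [X0, transpose_apply, Matrix.of_apply]
  rw [key T y x, key O y x, h.symm.apply (x : ι) (y : ι)]
  congr 3
  by_cases hxy : x = y
  · rw [if_pos hxy, if_pos hxy.symm]
  · rw [if_neg hxy, if_neg (Ne.symm hxy)]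

theorem loss_uI (hu : Loss u) (ha : 0 < a) (I : Finset ι) (U : ι → ℝ) : Loss (uI I a u U) := by
  intro x
  unfold uI
  by_cases h : x ∈ I
  · rw [if_pos h]
    simp [ha]
  · rw [if_neg h]
    exact hu x

/-- splitting of a sum over all sites -/
theorem sum_split (h : Geo A T I O w) (g : ι → ℂ) :
    ∑ y, g y = g w + ∑ y ∈ T, g y + ∑ y ∈ I, g y + ∑ y ∈ O, g y := by
  have h1 : (univ : Finset ι) = insert w (T ∪ (I ∪ O)) := by
    ext x
    simp only [mem_univ, mem_insert, mem_union, true_iff]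
    exact h.all x
  have hTIO : Disjoint T (I ∪ O) := by
    rw [Finset.disjoint_left]
    intro x hx hx'
    rcases mem_union.mp hx' with h' | h'
    · exact h.TI x hx h'
    · exact h.TO x hx h'
  have hIO : Disjoint I O := by
    rw [Finset.disjoint_left]
    exact h.IO
  have hw : w ∉ T ∪ (I ∪ O) := by
    simp only [mem_union, not_or]
    exact ⟨h.wT, h.wI, h.wO⟩
  rw [h1, Finset.sum_insert hw, Finset.sum_union hTIO, Finset.sum_union hIO]
  ring

/-- sums over the exterior of `T` in the rows of `T` -/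
theorem ext_T (h : Geo A T I O w) {t : ι} (ht : t ∈ T) (f : ι → ℂ) :
    ∑ y ∈ univ \ T, (A t y : ℂ) * f y = (A t w : ℂ) * f w + ∑ l ∈ I, (A t l : ℂ) * f l := by
  have h1 : ∑ y, (A t y : ℂ) * f y = (∑ y ∈ univ \ T, (A t y : ℂ) * f y) +
      ∑ y ∈ T, (A t y : ℂ) * f y := by
    rw [Finset.sum_sdiff (subset_univ T)]
  have h2 := sum_split h (fun y => (A t y : ℂ) * f y)
  have h3 : ∑ y ∈ O, (A t y : ℂ) * f y = 0 := by
    refine Finset.sum_eq_zero fun y hy => ?_
    rw [h.sep t ht y hy]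
    simp
  rw [h3] at h2
  rw [h1] at h2
  linear_combination h2

theorem sepO (h : Geo A T I O w) {t y : ι} (ht : t ∈ O) (hy : y ∈ T) : A t y = 0 := by
  rw [h.symm.apply y t]
  exact h.sep y hy t ht

theorem sepw' (h : Geo A T I O w) {t : ι} (ht : t ∉ T) (htw : t ≠ w) : A t w = 0 := by
  rw [h.symm.apply w t]
  exact h.sepw t ht htw

/-- sums over the exterior of `O` in the rows of `O` -/
theorem ext_O (h : Geo A T I O w) {t : ι} (ht : t ∈ O) (f : ι → ℂ) :
    ∑ y ∈ univ \ O, (A t y : ℂ) * f y = ∑ l ∈ I, (A t l : ℂ) * f l := by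
  have h1 : ∑ y, (A t y : ℂ) * f y = (∑ y ∈ univ \ O, (A t y : ℂ) * f y) +
      ∑ y ∈ O, (A t y : ℂ) * f y := by
    rw [Finset.sum_sdiff (subset_univ O)]
  have h2 := sum_split h (fun y => (A t y : ℂ) * f y)
  have h3 : ∑ y ∈ T, (A t y : ℂ) * f y = 0 := by
    refine Finset.sum_eq_zero fun y hy => ?_
    rw [sepO h ht hy]
    simp
  have h4 : (A t w : ℂ) = 0 := by
    have htw : t ≠ w := by rintro rfl; exact h.wO ht
    rw [sepw' h (fun hT => h.TO t hT ht) htw]
    simp
  rw [h3, h4] at h2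
  rw [h1] at h2
  linear_combination h2

/-- the values in `T` in terms of those at `w` and at the ports -/
theorem val_T (h : Geo A T I O w) {r : ι → ℂ} (hr : ∀ x ∈ T, (r x).im < 0) {f : ι → ℂ}
    (hf : ∀ x ∈ T, ∑ y, HM A r x y * f y = 0) {x : ι} (hx : x ∈ T) :
    f x = -∑ t ∈ T, RC A T r x t * ((A t w : ℂ) * f w + ∑ l ∈ I, (A t l : ℂ) * f l) := by
  rw [elim h.symm hr hf hx]
  congr 1
  exact Finset.sum_congr rfl fun t ht => by rw [ext_T h ht f]

theorem val_O (h : Geo A T I O w) {r : ι → ℂ} (hr : ∀ x ∈ O, (r x).im < 0) {f : ι → ℂ}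
    (hf : ∀ x ∈ O, ∑ y, HM A r x y * f y = 0) {x : ι} (hx : x ∈ O) :
    f x = -∑ t ∈ O, RC A O r x t * ∑ l ∈ I, (A t l : ℂ) * f l := by
  rw [elim h.symm hr hf hx]
  congr 1
  exact Finset.sum_congr rfl fun t ht => by rw [ext_O h ht f]

/-- the row of a port site after elimination of `T` and `O` -/
theorem row_I (h : Geo A T I O w) {r : ι → ℂ} {U : ι → ℝ}
    (hrT : ∀ x ∈ T, (r x).im < 0) (hrO : ∀ x ∈ O, (r x).im < 0)
    (huT : ∀ x ∈ T, r x = u x) (huO : ∀ x ∈ O, r x = u x)
    (hrI : ∀ x ∈ I, r x = (U x : ℂ) - (a : ℂ) * Complex.I) {f : ι → ℂ}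
    (hfT : ∀ x ∈ T, ∑ y, HM A r x y * f y = 0) (hfO : ∀ x ∈ O, ∑ y, HM A r x y * f y = 0)
    (x : I) :
    ∑ y, HM A r x y * f y =
      ((diagonal (fun x : I => (U x : ℂ)) + X0 A T I O a u) *ᵥ (fun y : I => f y)) x +
        phc A T w u x * f w := by
  have hxI : (x : ι) ∈ I := x.2
  have hxT : (x : ι) ∉ T := fun hT => h.TI x hT hxI
  have hxO : (x : ι) ∉ O := h.IO x hxI
  have hxw : (x : ι) ≠ w := by
    intro hx
    exact h.wI (by rw [← hx]; exact hxI)
  -- the row
  have h1 : ∑ y, HM A r x y * f y = (∑ y, (A x y : ℂ) * f y) + r x * f x := by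
    simp_rw [HM_apply, add_mul, Finset.sum_add_distrib, ite_mul, zero_mul]
    congr 1
    rw [Finset.sum_ite_eq]
    simp
  have h2 := sum_split h (fun y => (A x y : ℂ) * f y)
  have h3 : (A x w : ℂ) = 0 := by
    rw [sepw' h hxT hxw]; simp
  -- `T`
  have hRT : ∀ t t', RC A T r t t' = RC A T u t t' := fun t t' => RC_congr A huT t t'
  have hRO : ∀ t t', RC A O r t t' = RC A O u t t' := fun t t' => RC_congr A huO t t'
  have h4 : ∑ t ∈ T, (A x t : ℂ) * f t = phc A T w u x * f w -
      ∑ l ∈ I, (∑ t, ∑ t', (A x t : ℂ) * RC A T u t t' * (A t' l : ℂ)) * f l := by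
    have e1 : ∑ t ∈ T, (A x t : ℂ) * f t =
        -((∑ t ∈ T, ∑ t' ∈ T, (A x t : ℂ) * RC A T u t t' * (A t' w : ℂ)) * f w) -
        ∑ l ∈ I, (∑ t ∈ T, ∑ t' ∈ T, (A x t : ℂ) * RC A T u t t' * (A t' l : ℂ)) * f l := by
      have e2 : ∀ t ∈ T, (A x t : ℂ) * f t =
          -(∑ t' ∈ T, (A x t : ℂ) * RC A T u t t' * (A t' w : ℂ)) * f w -
          ∑ l ∈ I, (∑ t' ∈ T, (A x t : ℂ) * RC A T u t t' * (A t' l : ℂ)) * f l := by
        intro t ht
        rw [val_T h hrT hfT ht]
        simp_rw [hRT, mul_add, Finset.sum_add_distrib]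
        have e3 : ∑ t' ∈ T, RC A T u t t' * ∑ l ∈ I, (A t' l : ℂ) * f l =
            ∑ l ∈ I, (∑ t' ∈ T, RC A T u t t' * (A t' l : ℂ)) * f l := by
          simp_rw [Finset.mul_sum, Finset.sum_mul]
          rw [Finset.sum_comm]
          refine Finset.sum_congr rfl fun l _ => Finset.sum_congr rfl fun t' _ => by ring
        rw [e3, neg_add, mul_add]
        have e4 : (A x t : ℂ) * -∑ t' ∈ T, RC A T u t t' * ((A t' w : ℂ) * f w) =
            -(∑ t' ∈ T, (A x t : ℂ) * RC A T u t t' * (A t' w : ℂ)) * f w := by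
          rw [mul_neg, Finset.mul_sum, neg_mul, Finset.sum_mul]
          congr 1
          exact Finset.sum_congr rfl fun t' _ => by ring
        have e5 : (A x t : ℂ) * -∑ l ∈ I, (∑ t' ∈ T, RC A T u t t' * (A t' l : ℂ)) * f l =
            -∑ l ∈ I, (∑ t' ∈ T, (A x t : ℂ) * RC A T u t t' * (A t' l : ℂ)) * f l := by
          rw [mul_neg, Finset.mul_sum]
          congr 1
          refine Finset.sum_congr rfl fun l _ => ?_
          rw [← mul_assoc, Finset.mul_sum]
          congr 1
          exact Finset.sum_congr rfl fun t' _ => by ring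
        rw [e4, e5]
        ring
      rw [Finset.sum_congr rfl e2, Finset.sum_sub_distrib, ← Finset.sum_mul,
        Finset.sum_neg_distrib, neg_mul]
      congr 1
      rw [Finset.sum_comm]
      refine Finset.sum_congr rfl fun l _ => ?_
      rw [← Finset.sum_mul]
    have e6 : phc A T w u x = -∑ t ∈ T, ∑ t' ∈ T, (A x t : ℂ) * RC A T u t t' * (A t' w : ℂ) := by
      unfold phc
      rw [sum_RC A u (fun y => (A w y : ℂ)) (fun y' => (A y' x : ℂ)), Finset.sum_comm]
      congr 1
      refine Finset.sum_congr rfl fun t _ => Finset.sum_congr rfl fun t' _ => ?_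
      rw [RC_symm h.symm u t' t, h.symm.apply (t' : ι) w, h.symm.apply (x : ι) t]
      ring
    rw [e1, e6]
    have e7 : ∀ l : ι, ∑ t, ∑ t', (A x t : ℂ) * RC A T u t t' * (A t' l : ℂ) =
        ∑ t ∈ T, ∑ t' ∈ T, (A x t : ℂ) * RC A T u t t' * (A t' l : ℂ) := fun l =>
      sum_RC A u (fun y => (A x y : ℂ)) (fun y' => (A y' l : ℂ))
    simp_rw [e7]
    ring
  have h5 : ∑ t ∈ O, (A x t : ℂ) * f t =
      -∑ l ∈ I, (∑ t, ∑ t', (A x t : ℂ) * RC A O u t t' * (A t' l : ℂ)) * f l := by
    have e7 : ∀ l : ι, ∑ t, ∑ t', (A x t : ℂ) * RC A O u t t' * (A t' l : ℂ) =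
        ∑ t ∈ O, ∑ t' ∈ O, (A x t : ℂ) * RC A O u t t' * (A t' l : ℂ) := fun l =>
      sum_RC A u (fun y => (A x y : ℂ)) (fun y' => (A y' l : ℂ))
    simp_rw [e7]
    have e2 : ∀ t ∈ O, (A x t : ℂ) * f t =
        -∑ l ∈ I, (∑ t' ∈ O, (A x t : ℂ) * RC A O u t t' * (A t' l : ℂ)) * f l := by
      intro t ht
      rw [val_O h hrO hfO ht]
      simp_rw [hRO]
      have e3 : ∑ t' ∈ O, RC A O u t t' * ∑ l ∈ I, (A t' l : ℂ) * f l =
          ∑ l ∈ I, (∑ t' ∈ O, RC A O u t t' * (A t' l : ℂ)) * f l := by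
        simp_rw [Finset.mul_sum, Finset.sum_mul]
        rw [Finset.sum_comm]
        refine Finset.sum_congr rfl fun l _ => Finset.sum_congr rfl fun t' _ => by ring
      rw [e3, mul_neg, Finset.mul_sum]
      congr 1
      refine Finset.sum_congr rfl fun l _ => ?_
      rw [← mul_assoc, Finset.mul_sum]
      congr 1
      exact Finset.sum_congr rfl fun t' _ => by ring
    rw [Finset.sum_congr rfl e2, Finset.sum_neg_distrib]
    congr 1
    rw [Finset.sum_comm]
    refine Finset.sum_congr rfl fun l _ => ?_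
    rw [← Finset.sum_mul]
  -- the right side
  have h6 : ((diagonal (fun x : I => (U x : ℂ)) + X0 A T I O a u) *ᵥ (fun y : I => f y)) x =
      ((U x : ℂ) - (a : ℂ) * Complex.I) * f x + ∑ l ∈ I, (A x l : ℂ) * f l -
      ∑ l ∈ I, (∑ t, ∑ t', (A x t : ℂ) * RC A T u t t' * (A t' l : ℂ)) * f l -
      ∑ l ∈ I, (∑ t, ∑ t', (A x t : ℂ) * RC A O u t t' * (A t' l : ℂ)) * f l := by
    simp only [mulVec, dotProduct, Matrix.add_apply, X0, Matrix.of_apply, diagonal_apply]
    rw [← Finset.sum_coe_sort I (fun l => (A x l : ℂ) * f l),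
      ← Finset.sum_coe_sort I (fun l => (∑ t, ∑ t', (A x t : ℂ) * RC A T u t t' *
        (A t' l : ℂ)) * f l),
      ← Finset.sum_coe_sort I (fun l => (∑ t, ∑ t', (A x t : ℂ) * RC A O u t t' *
        (A t' l : ℂ)) * f l)]
    have e8 : ((U x : ℂ) - (a : ℂ) * Complex.I) * f x =
        ∑ l : I, ((if x = l then ((U x : ℝ) : ℂ) else 0) -
          (if x = l then (a : ℂ) * Complex.I else 0)) * f l := by
      rw [Finset.sum_eq_single x]
      · rw [if_pos rfl, if_pos rfl]
      · intro l _ hl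
        rw [if_neg (Ne.symm hl), if_neg (Ne.symm hl)]
        ring
      · intro hx; exact absurd (mem_univ _) hx
    rw [e8, ← Finset.sum_add_distrib, ← Finset.sum_sub_distrib, ← Finset.sum_sub_distrib]
    refine Finset.sum_congr rfl fun l _ => ?_
    ring
  rw [h1, h2, h3, h4, h5, h6, hrI x hxI]
  ring

/-- the rows of the Green function, normalised at `w` -/
theorem row_aa (hA : A.IsSymm) {v : ι → ℂ} (hv : Loss v) (x : ι) :
    ∑ y, HM A (ref v w) x y * aa A v w y = if x = w then zz A v w + Complex.I else 0 := by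
  have hl := loss_ref (hv.off w)
  have hG := Gref_ne hA (hv.off w)
  have h1 := congrFun (congrFun (HM_mul_GM hA hl) x) w
  rw [Matrix.mul_apply, Matrix.one_apply] at h1
  have h2 : ∑ y, HM A (ref v w) x y * aa A v w y =
      -(∑ y, HM A (ref v w) x y * GM A (ref v w) y w) / GM A (ref v w) w w := by
    rw [← Finset.sum_neg_distrib, Finset.sum_div]
    refine Finset.sum_congr rfl fun y _ => ?_
    unfold aa
    ring
  rw [h2, h1]
  by_cases hx : x = w
  · rw [if_pos hx, if_pos hx]
    unfold zz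
    rw [neg_div, one_div]
    ring
  · rw [if_neg hx, if_neg hx]
    simp

section main

variable (h : Geo A T I O w) (hu : Loss u) (ha : 0 < a) (U : ι → ℝ)

include h in
theorem ref_T {x : ι} (hx : x ∈ T) : ref (uI I a u U) w x = u x := by
  have hxw : x ≠ w := by rintro rfl; exact h.wT hx
  unfold ref uI
  rw [Function.update_of_ne hxw, if_neg (h.TI x hx)]

include h in
theorem ref_O {x : ι} (hx : x ∈ O) : ref (uI I a u U) w x = u x := by
  have hxw : x ≠ w := by rintro rfl; exact h.wO hx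
  unfold ref uI
  rw [Function.update_of_ne hxw, if_neg (fun hI => h.IO x hI hx)]

include h in
theorem ref_I {x : ι} (hx : x ∈ I) :
    ref (uI I a u U) w x = (U x : ℂ) - (a : ℂ) * Complex.I := by
  have hxw : x ≠ w := by rintro rfl; exact h.wI hx
  unfold ref uI
  rw [Function.update_of_ne hxw, if_pos hx]

end main

/-- the equation at the centre -/
theorem eq_w (h : Geo A T I O w) (hu : Loss u) (ha : 0 < a) (U : ι → ℝ) :
    zz A (uI I a u U) w = zec A T w u + ∑ l : I, phc A T w u l * aa A (uI I a u U) w l := by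
  have hv := loss_uI hu ha I U
  have hl := loss_ref (hv.off w)
  have h1 := row_w (L := I) (f := aa A (uI I a u U) w) h.symm (fun x _ => hl x) h.wT
    (fun x hx => ⟨fun hT => h.TI x hT hx, fun hxw => h.wI (by rw [← hxw]; exact hx)⟩)
    (fun x hx y hyT hyw hyI => by
      rcases h.all y with h' | h' | h' | h'
      · exact absurd h' hyw
      · exact absurd h' hyT
      · exact absurd h' hyI
      · exact h.sep x hx y h')
    h.sepw (fun x hx => by
      rw [row_aa h.symm hv, if_neg]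
      rintro rfl
      exact h.wT hx)
  rw [row_aa h.symm hv, if_pos rfl, aa_self h.symm (hv.off w),
    zec_congr A w (fun x hx => ref_T h U hx)] at h1
  have h2 : ref (uI I a u U) w w = -Complex.I := by simp [ref]
  have h3 : ∑ l ∈ I, phc A T w (ref (uI I a u U) w) l * aa A (uI I a u U) w l =
      ∑ l : I, phc A T w u l * aa A (uI I a u U) w l := by
    rw [← Finset.sum_coe_sort I (fun l => phc A T w (ref (uI I a u U) w) l *
      aa A (uI I a u U) w l)]
    exact Finset.sum_congr rfl fun l _ => by rw [phc_congr A w (fun x hx => ref_T h U hx)]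
  rw [h2, h3] at h1
  linear_combination h1

/-- the equation at the port sites -/
theorem eq_I (h : Geo A T I O w) (hu : Loss u) (ha : 0 < a) (U : ι → ℝ) :
    (diagonal (fun x : I => (U x : ℂ)) + X0 A T I O a u) *ᵥ (fun y : I => aa A (uI I a u U) w y) =
      fun x : I => phc A T w u x := by
  have hv := loss_uI hu ha I U
  have hl := loss_ref (hv.off w)
  funext x
  have hxw : (x : ι) ≠ w := fun hxw => h.wI (by rw [← hxw]; exact x.2)
  have h1 := row_I (u := u) (U := U) (a := a) h (r := ref (uI I a u U) w)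
    (f := aa A (uI I a u U) w) (fun x _ => hl x) (fun x _ => hl x)
    (fun x hx => ref_T h U hx) (fun x hx => ref_O h U hx) (fun x hx => ref_I h U hx)
    (fun x hx => by
      rw [row_aa h.symm hv, if_neg]
      rintro rfl
      exact h.wT hx)
    (fun x hx => by
      rw [row_aa h.symm hv, if_neg]
      rintro rfl
      exact h.wO hx) x
  rw [row_aa h.symm hv, if_neg hxw, aa_self h.symm (hv.off w)] at h1
  linear_combination -h1

/-- the other sites, and the port sites -/
theorem eq_O (h : Geo A T I O w) (hu : Loss u) (ha : 0 < a) (U : ι → ℝ) {x : ι}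
    (hx : x ∈ I ∨ x ∈ O) :
    aa A (uI I a u U) w x = ∑ l : I, psi A I O u x l * aa A (uI I a u U) w l := by
  have hv := loss_uI hu ha I U
  have hl := loss_ref (hv.off w)
  by_cases hI : x ∈ I
  · rw [Finset.sum_eq_single (⟨x, hI⟩ : I)]
    · unfold psi
      rw [if_pos hI, if_pos rfl, one_mul]
    · intro l _ hne
      unfold psi
      rw [if_pos hI, if_neg, zero_mul]
      intro hxl
      exact hne (Subtype.ext hxl.symm)
    · intro h'; exact absurd (mem_univ _) h'
  · have hO : x ∈ O := hx.resolve_left hI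
    rw [val_O h (r := ref (uI I a u U) w) (f := aa A (uI I a u U) w) (fun x _ => hl x) (fun x hx => by
      rw [row_aa h.symm hv, if_neg]
      rintro rfl
      exact h.wO hx) hO]
    rw [Finset.sum_congr rfl fun t ht => by rw [RC_congr A (fun x hx => ref_O h U hx)]]
    have e : ∀ l : I, psi A I O u x l = -∑ t ∈ O, RC A O u x t * (A t l : ℂ) := by
      intro l
      unfold psi
      rw [if_neg hI]
      congr 1
      symm
      refine Finset.sum_subset (subset_univ O) fun t _ ht => ?_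
      rw [RC_right A u x ht, zero_mul]
    simp_rw [e]
    simp_rw [neg_mul]
    rw [Finset.sum_neg_distrib]
    congr 1
    simp_rw [Finset.mul_sum, Finset.sum_mul]
    rw [Finset.sum_comm, ← Finset.sum_coe_sort I (fun l => ∑ t ∈ O, RC A O u x t *
      ((A t l : ℂ) * aa A (uI I a u U) w l))]
    exact Finset.sum_congr rfl fun l _ => Finset.sum_congr rfl fun t _ => by ring

theorem det_ne (h : Geo A T I O w) (hu : Loss u) (ha : 0 < a) (U : I → ℝ) :
    (diagonal (fun x : I => (U x : ℂ)) + X0 A T I O a u).det ≠ 0 := by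
  classical
  intro h0
  obtain ⟨g, hg, hg0⟩ := exists_mulVec_eq_zero_iff.mpr h0
  apply hg
  -- extend everything
  set U' : ι → ℝ := fun x => if hx : x ∈ I then U ⟨x, hx⟩ else 0 with hU'
  have hUU : ∀ x : I, U' x = U x := fun x => by simp [hU']
  set gg : ι → ℂ := fun x => if hx : x ∈ I then g ⟨x, hx⟩ else 0 with hgg
  have hgI : ∀ x : I, gg x = g x := fun x => by simp [hgg]
  set f : ι → ℂ := fun x => if x ∈ T then -∑ t ∈ T, RC A T u x t * ∑ l ∈ I, (A t l : ℂ) * gg l
    else if x ∈ O then -∑ t ∈ O, RC A O u x t * ∑ l ∈ I, (A t l : ℂ) * gg l else gg x with hf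
  have hfw : f w = 0 := by
    simp only [hf]
    rw [if_neg h.wT, if_neg h.wO]
    simp [hgg, h.wI]
  have hfI : ∀ x ∈ I, f x = gg x := by
    intro x hx
    simp only [hf]
    rw [if_neg (fun hT => h.TI x hT hx), if_neg (h.IO x hx)]
  have hfT : ∀ x ∈ T, f x = -∑ t ∈ T, RC A T u x t * ∑ l ∈ I, (A t l : ℂ) * gg l := by
    intro x hx
    simp only [hf]
    rw [if_pos hx]
  have hfO : ∀ x ∈ O, f x = -∑ t ∈ O, RC A O u x t * ∑ l ∈ I, (A t l : ℂ) * gg l := by
    intro x hx
    simp only [hf]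
    rw [if_neg (fun hT => h.TO x hT hx), if_pos hx]
  set r : ι → ℂ := ref (uI I a u U') w with hr
  have hv := loss_uI hu ha I U'
  have hl : Loss r := loss_ref (hv.off w)
  have hrT : ∀ x ∈ T, r x = u x := fun x hx => ref_T h U' hx
  have hrO : ∀ x ∈ O, r x = u x := fun x hx => ref_O h U' hx
  have hrI : ∀ x ∈ I, r x = (U' x : ℂ) - (a : ℂ) * Complex.I := fun x hx => ref_I h U' hx
  -- rows
  have hrow : ∀ x, ∑ y, HM A r x y * f y = (∑ y, (A x y : ℂ) * f y) + r x * f x := by
    intro x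
    simp_rw [HM_apply, add_mul, Finset.sum_add_distrib, ite_mul, zero_mul]
    congr 1
    rw [Finset.sum_ite_eq]
    simp
  have hsumI : ∀ x : ι, ∑ l ∈ I, (A x l : ℂ) * f l = ∑ l ∈ I, (A x l : ℂ) * gg l := fun x =>
    Finset.sum_congr rfl fun l hl => by rw [hfI l hl]
  have rowT : ∀ x ∈ T, ∑ y, HM A r x y * f y = 0 := by
    intro x hx
    have e1 : ∑ y, HM A r x y * f y = ∑ y ∈ univ \ T, HM A r x y * f y +
        ∑ y ∈ T, HM A r x y * f y := by rw [Finset.sum_sdiff (subset_univ T)]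
    have e2 : ∑ y ∈ univ \ T, HM A r x y * f y = ∑ y ∈ univ \ T, (A x y : ℂ) * f y := by
      refine Finset.sum_congr rfl fun y hy => ?_
      have : x ≠ y := by
        rintro rfl
        exact (Finset.mem_sdiff.mp hy).2 hx
      rw [HM_apply, if_neg this, add_zero]
    have e3 : ∑ y ∈ T, HM A r x y * f y = -∑ l ∈ I, (A x l : ℂ) * gg l := by
      have e4 : ∀ y ∈ T, HM A r x y * f y =
          -∑ t ∈ T, (HM A u x y * RC A T u y t) * ∑ l ∈ I, (A t l : ℂ) * gg l := by
        intro y hy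
        have e5 : HM A r x y = HM A u x y := by
          rw [HM_apply, HM_apply]
          by_cases hxy : x = y
          · rw [if_pos hxy, if_pos hxy, hrT x hx]
          · rw [if_neg hxy, if_neg hxy]
        rw [e5, hfT y hy, mul_neg, Finset.mul_sum]
        congr 1
        exact Finset.sum_congr rfl fun t _ => by ring
      rw [Finset.sum_congr rfl e4, Finset.sum_neg_distrib]
      congr 1
      rw [Finset.sum_comm]
      have e6 : ∀ t ∈ T, ∑ y ∈ T, (HM A u x y * RC A T u y t) * ∑ l ∈ I, (A t l : ℂ) * gg l =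
          (if x = t then 1 else 0) * ∑ l ∈ I, (A t l : ℂ) * gg l := by
        intro t ht
        rw [← Finset.sum_mul, mul_RC h.symm (fun x _ => hu x) hx ht]
      rw [Finset.sum_congr rfl e6]
      simp [hx]
    rw [e1, e2, e3, ext_T h hx f, hfw, hsumI x]
    ring
  have rowO : ∀ x ∈ O, ∑ y, HM A r x y * f y = 0 := by
    intro x hx
    have e1 : ∑ y, HM A r x y * f y = ∑ y ∈ univ \ O, HM A r x y * f y +
        ∑ y ∈ O, HM A r x y * f y := by rw [Finset.sum_sdiff (subset_univ O)]
    have e2 : ∑ y ∈ univ \ O, HM A r x y * f y = ∑ y ∈ univ \ O, (A x y : ℂ) * f y := by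
      refine Finset.sum_congr rfl fun y hy => ?_
      have : x ≠ y := by
        rintro rfl
        exact (Finset.mem_sdiff.mp hy).2 hx
      rw [HM_apply, if_neg this, add_zero]
    have e3 : ∑ y ∈ O, HM A r x y * f y = -∑ l ∈ I, (A x l : ℂ) * gg l := by
      have e4 : ∀ y ∈ O, HM A r x y * f y =
          -∑ t ∈ O, (HM A u x y * RC A O u y t) * ∑ l ∈ I, (A t l : ℂ) * gg l := by
        intro y hy
        have e5 : HM A r x y = HM A u x y := by
          rw [HM_apply, HM_apply]
          by_cases hxy : x = y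
          · rw [if_pos hxy, if_pos hxy, hrO x hx]
          · rw [if_neg hxy, if_neg hxy]
        rw [e5, hfO y hy, mul_neg, Finset.mul_sum]
        congr 1
        exact Finset.sum_congr rfl fun t _ => by ring
      rw [Finset.sum_congr rfl e4, Finset.sum_neg_distrib]
      congr 1
      rw [Finset.sum_comm]
      have e6 : ∀ t ∈ O, ∑ y ∈ O, (HM A u x y * RC A O u y t) * ∑ l ∈ I, (A t l : ℂ) * gg l =
          (if x = t then 1 else 0) * ∑ l ∈ I, (A t l : ℂ) * gg l := by
        intro t ht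
        rw [← Finset.sum_mul, mul_RC h.symm (fun x _ => hu x) hx ht]
      rw [Finset.sum_congr rfl e6]
      simp [hx]
    rw [e1, e2, e3, ext_O h hx f, hsumI x]
    ring
  have rowI : ∀ x ∈ I, ∑ y, HM A r x y * f y = 0 := by
    intro x hx
    have e := row_I (u := u) (U := U') (a := a) h (r := r) (f := f) (fun x _ => hl x)
      (fun x _ => hl x) hrT hrO hrI rowT rowO ⟨x, hx⟩
    simp only at e
    rw [e, hfw, mul_zero, add_zero]
    have e2 : (fun y : I => f y) = g := by
      funext y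
      rw [hfI y y.2, hgI]
    have e3 : (fun x : I => (U' x : ℂ)) = fun x : I => (U x : ℂ) := by
      funext x
      rw [hUU]
    rw [e2, e3, hg0]
    rfl
  -- the quadratic form
  have h1 := HM_form h.symm r f
  have h2 : ∀ x, (starRingEnd ℂ) (f x) * ∑ y, HM A r x y * f y = 0 := by
    intro x
    rcases h.all x with h' | h' | h' | h'
    · rw [h', hfw]; simp
    · rw [rowT x h', mul_zero]
    · rw [rowI x h', mul_zero]
    · rw [rowO x h', mul_zero]
  simp only [h2, Finset.sum_const_zero, Complex.zero_im] at h1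
  funext x
  have h3 : ∀ x ∈ univ, 0 ≤ gam r x * ‖f x‖ ^ 2 := fun x _ =>
    mul_nonneg (gam_pos hl x).le (by positivity)
  have h4 : gam r x * ‖f x‖ ^ 2 = 0 :=
    (Finset.sum_eq_zero_iff_of_nonneg h3).mp (by linarith) x (mem_univ (x : ι))
  have h5 : gam r x ≠ 0 := (gam_pos hl x).ne'
  have h6 := (mul_eq_zero.mp h4).resolve_left h5
  have h7 : f x = 0 := by simpa using h6
  rw [hfI x x.2, hgI] at h7
  exact h7

end Pool.Agent.Lib.MP_562b47_mp.LB
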