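import Pool.Agent.Lib.MP_562b47_mp.LB.Core
import Pool.Agent.Lib.MP_562b47_mp.LB.Lin
import Pool.Agent.Lib.MP_562b47_mp.WO.Trade

/-!
MP_562b47, LB-One: the bridge for one block, everything frozen except the potentials at its port
sites.
-/

set_option autoImplicit false

open MeasureTheory Matrix Finset

namespace Pool.Agent.Lib.MP_562b47_mp.LB

open Pool.Agent.Lib.MP_562b47_mp.AL Pool.Agent.Lib.MP_562b47_mp Pool.Agent.Lib.MP_562b47_mp.EC

variable {ι : Type*} [Fintype ι] [DecidableEq ι] {A : Matrix ι ι ℝ} {T I O : Finset ι} {w : ι}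
  {u : ι → ℂ} {a g r lw : ℝ}

/-- the potentials at the port sites in terms of the scaled variables -/
noncomputable def Uv (I : Finset ι) (lw : ℝ) (mid : ι → ℝ) (v : I → ℝ) (x : ι) : ℝ :=
  if h : x ∈ I then mid x + lw / 2 * v ⟨x, h⟩ else 0

theorem Uv_coe (I : Finset ι) (lw : ℝ) (mid : ι → ℝ) (v : I → ℝ) (x : I) :
    Uv I lw mid v x = mid x + lw / 2 * v x := by
  unfold Uv
  rw [dif_pos x.2]

/-- the scaled matrix -/
noncomputable def Xs (A : Matrix ι ι ℝ) (T I O : Finset ι) (a lw : ℝ) (mid : ι → ℝ) (u : ι → ℂ) :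
    Matrix I I ℂ :=
  ((2 / lw : ℝ) : ℂ) • (X0 A T I O a u + diagonal fun x : I => (mid x : ℂ))

theorem mt_Xs (hl : 0 < lw) (mid : ι → ℝ) (v : I → ℝ) :
    LL.mt (Xs A T I O a lw mid u) (LL.cc v) = ((2 / lw : ℝ) : ℂ) •
      (diagonal (fun x : I => ((Uv I lw mid v x : ℝ) : ℂ)) + X0 A T I O a u) := by
  have hlc : (lw : ℂ) ≠ 0 := by exact_mod_cast hl.ne'
  have h1 : diagonal (LL.cc v) = ((2 / lw : ℝ) : ℂ) •
      (diagonal fun x : I => ((lw / 2 * v x : ℝ) : ℂ)) := by
    ext i j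
    rw [Matrix.smul_apply]
    by_cases h : i = j
    · subst h
      rw [diagonal_apply_eq, diagonal_apply_eq, LL.cc, smul_eq_mul]
      push_cast
      field_simp
    · rw [diagonal_apply_ne _ h, diagonal_apply_ne _ h, smul_zero]
  have h2 : (diagonal fun x : I => ((Uv I lw mid v x : ℝ) : ℂ)) =
      (diagonal fun x : I => ((lw / 2 * v x : ℝ) : ℂ)) + diagonal fun x : I => (mid x : ℂ) := by
    rw [diagonal_add]
    congr 1
    funext x
    rw [Uv_coe]
    push_cast
    ring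
  unfold LL.mt Xs
  rw [h1, h2, ← smul_add]
  congr 1
  abel

/-- the response in scaled variables -/
theorem resp_eq (h : Geo A T I O w) (hu : Loss u) (ha : 0 < a) (hl : 0 < lw) (mid : ι → ℝ)
    (ψ : I → ℂ) (s : ℂ) (v : I → ℝ) :
    ψ ⬝ᵥ ((LL.mt (Xs A T I O a lw mid u) (LL.cc v))⁻¹ *ᵥ fun l : I => phc A T w u l / s) =
      ((lw / 2 : ℝ) : ℂ) / s * ∑ l : I, ψ l * aa A (uI I a u (Uv I lw mid v)) w l := by
  have hN := det_ne h hu ha (fun x : I => Uv I lw mid v x)
  set N := diagonal (fun x : I => ((Uv I lw mid v x : ℝ) : ℂ)) + X0 A T I O a u with hNd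
  have hk : ((2 / lw : ℝ) : ℂ) ≠ 0 := by
    have : (2 / lw : ℝ) ≠ 0 := by positivity
    exact_mod_cast this
  have h1 : (LL.mt (Xs A T I O a lw mid u) (LL.cc v))⁻¹ = ((lw / 2 : ℝ) : ℂ) • N⁻¹ := by
    rw [mt_Xs hl, ← hNd]
    letI : Invertible ((2 / lw : ℝ) : ℂ) := invertibleOfNonzero hk
    rw [Matrix.inv_smul _ _ (isUnit_iff_ne_zero.mpr hN)]
    congr 1
    rw [invOf_eq_inv]
    push_cast
    rw [inv_div]
  have h2 : N⁻¹ *ᵥ (fun l : I => phc A T w u l) =
      fun y : I => aa A (uI I a u (Uv I lw mid v)) w y := by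
    rw [← eq_I h hu ha (Uv I lw mid v), ← hNd, Matrix.mulVec_mulVec,
      Matrix.nonsing_inv_mul _ (isUnit_iff_ne_zero.mpr hN), Matrix.one_mulVec]
  have h3 : (fun l : I => phc A T w u l / s) = (1 / s) • fun l : I => phc A T w u l := by
    funext l
    simp only [Pi.smul_apply, smul_eq_mul]
    ring
  rw [h1, h3, Matrix.mulVec_smul, Matrix.smul_mulVec, h2, dotProduct_smul, dotProduct_smul]
  simp only [smul_eq_mul, dotProduct]
  ring

/-- `2 g TT = z - zec` -/
theorem TT_eq (h : Geo A T I O w) (hu : Loss u) (ha : 0 < a) (hg : 0 < g) (hl : 0 < lw)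
    (mid : ι → ℝ) (v : I → ℝ) :
    2 * (g : ℂ) * ((fun l : I => phc A T w u l / ((√(g * lw) : ℝ) : ℂ)) ⬝ᵥ
      ((LL.mt (Xs A T I O a lw mid u) (LL.cc v))⁻¹ *ᵥ
        fun l : I => phc A T w u l / ((√(g * lw) : ℝ) : ℂ))) =
      zz A (uI I a u (Uv I lw mid v)) w - zec A T w u := by
  rw [resp_eq h hu ha hl, eq_w h hu ha (Uv I lw mid v), add_sub_cancel_left]
  have hs : (((√(g * lw) : ℝ) : ℂ)) * ((√(g * lw) : ℝ) : ℂ) = (g : ℂ) * (lw : ℂ) := by
    rw [← Complex.ofReal_mul, Real.mul_self_sqrt (mul_pos hg hl).le]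
    push_cast
    ring
  have hs0 : ((√(g * lw) : ℝ) : ℂ) ≠ 0 := by
    have : √(g * lw) ≠ 0 := (Real.sqrt_pos.mpr (mul_pos hg hl)).ne'
    exact_mod_cast this
  have h1 : ∑ l : I, phc A T w u l / ((√(g * lw) : ℝ) : ℂ) *
      aa A (uI I a u (Uv I lw mid v)) w l = (∑ l : I, phc A T w u l *
      aa A (uI I a u (Uv I lw mid v)) w l) / ((√(g * lw) : ℝ) : ℂ) := by
    rw [Finset.sum_div]
    exact Finset.sum_congr rfl fun l _ => by ring
  rw [h1]
  set Y := ∑ l : I, phc A T w u l * aa A (uI I a u (Uv I lw mid v)) w l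
  have e : 2 * (g : ℂ) * (((lw / 2 : ℝ) : ℂ) / ((√(g * lw) : ℝ) : ℂ) *
      (Y / ((√(g * lw) : ℝ) : ℂ))) = (g : ℂ) * (lw : ℂ) * Y /
        (((√(g * lw) : ℝ) : ℂ) * ((√(g * lw) : ℝ) : ℂ)) := by
    push_cast
    field_simp
  rw [e, hs]
  have hgc : (g : ℂ) ≠ 0 := by exact_mod_cast hg.ne'
  have hlc : (lw : ℂ) ≠ 0 := by exact_mod_cast hl.ne'
  field_simp

/-- the data of the block -/
noncomputable def blk (h : Geo A T I O w) (hu : Loss u) (ha : 0 < a) (hg : 0 < g) (hl : 0 < lw)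
    (mid : ι → ℝ) (hp : ∀ l ∈ I, ‖phc A T w u l‖ ^ 2 ≤ g * lw)
    (hz : (zec A T w u).im ≤ g / 8) : Blk I where
  Ξ := Xs A T I O a lw mid u
  φ := fun l => phc A T w u l / ((√(g * lw) : ℝ) : ℂ)
  sym := by
    unfold Xs
    rw [Matrix.transpose_smul, Matrix.transpose_add, X0_symm h, diagonal_transpose]
  phi_le := by
    intro l
    have hs : 0 < √(g * lw) := Real.sqrt_pos.mpr (mul_pos hg hl)
    rw [norm_div, Complex.norm_real, Real.norm_of_nonneg hs.le, div_le_one hs]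
    exact Real.le_sqrt_of_sq_le (hp l l.2)
  det_ne := by
    intro v
    rw [mt_Xs hl, Matrix.det_smul]
    refine mul_ne_zero (pow_ne_zero _ ?_) (det_ne h hu ha _)
    have : (2 / lw : ℝ) ≠ 0 := by positivity
    exact_mod_cast this
  im := by
    intro v
    have h1 := congrArg Complex.im (TT_eq h hu ha hg hl mid v)
    have h2 : (2 * (g : ℂ)) = ((2 * g : ℝ) : ℂ) := by push_cast; ring
    rw [h2, Complex.im_ofReal_mul, Complex.sub_im] at h1
    have h3 := zz_im_nonneg h.symm ((loss_uI hu ha I (Uv I lw mid v)).off w)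
    set t := ((fun l : I => phc A T w u l / ((√(g * lw) : ℝ) : ℂ)) ⬝ᵥ
      ((LL.mt (Xs A T I O a lw mid u) (LL.cc v))⁻¹ *ᵥ
        fun l : I => phc A T w u l / ((√(g * lw) : ℝ) : ℂ))).im
    by_contra hcon
    push Not at hcon
    nlinarith

section far

variable {κ' : Type*} [Fintype κ']

/-- the loss at `x ≠ w` -/
theorem gam_uI (h : Geo A T I O w) (U : ι → ℝ) {x : ι} (hx : x ≠ w) :
    gam (ref (uI I a u U) w) x = if x ∈ I then a else gam u x := by
  unfold gam ref uI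
  rw [Function.update_of_ne hx]
  split_ifs <;> simp

/-- near and far sources -/
theorem XX_split (h : Geo A T I O w) (ξ : κ' → ι → ℝ) (U : ι → ℝ) :
    XX A ξ (uI I a u U) w = ∑ x ∈ T, gam u x * ff ξ x w * ‖aa A (uI I a u U) w x‖ ^ 2 +
      ∑ x ∈ I ∪ O, (if x ∈ I then a else gam u x) * ff ξ x w * ‖aa A (uI I a u U) w x‖ ^ 2 := by
  unfold XX
  have hd : Disjoint T (I ∪ O) := by
    rw [Finset.disjoint_left]
    intro x hx hx'
    rcases Finset.mem_union.mp hx' with h1 | h1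
    · exact h.TI x hx h1
    · exact h.TO x hx h1
  have hw : w ∉ T ∪ (I ∪ O) := by
    simp only [Finset.mem_union, not_or]
    exact ⟨h.wT, h.wI, h.wO⟩
  have hu : (univ : Finset ι) = insert w (T ∪ (I ∪ O)) := by
    ext x
    simp only [mem_univ, mem_insert, mem_union, true_iff]
    exact h.all x
  rw [hu, Finset.sum_insert hw, ff_self, mul_zero, zero_mul, zero_add, Finset.sum_union hd]
  congr 1
  · refine Finset.sum_congr rfl fun x hx => ?_
    have hxw : x ≠ w := by rintro rfl; exact h.wT hx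
    rw [gam_uI h U hxw, if_neg (h.TI x hx)]
  · refine Finset.sum_congr rfl fun x hx => ?_
    have hxw : x ≠ w := by
      rintro rfl
      rcases Finset.mem_union.mp hx with h1 | h1
      · exact h.wI h1
      · exact h.wO h1
    rw [gam_uI h U hxw]

theorem near_le (h : Geo A T I O w) (hu : Loss u) (ha : 0 < a) (ξ : κ' → ι → ℝ) {dm : ℝ}
    (hd : ∀ x ∈ T, ff ξ x w ≤ dm) (hd0 : 0 ≤ dm) (U : ι → ℝ) :
    ∑ x ∈ T, gam u x * ff ξ x w * ‖aa A (uI I a u U) w x‖ ^ 2 ≤
      dm * (zz A (uI I a u U) w).im := by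
  have hL := loss_uI hu ha I U
  rw [zz_im h.symm (hL.off w), Finset.mul_sum]
  have hT : T ⊆ univ.erase w := fun x hx =>
    mem_erase.mpr ⟨by rintro rfl; exact h.wT hx, mem_univ _⟩
  refine le_trans ?_ (Finset.sum_le_sum_of_subset_of_nonneg hT fun x _ _ =>
    mul_nonneg hd0 (mul_nonneg (gam_pos hL x).le (sq_nonneg _)))
  refine Finset.sum_le_sum fun x hx => ?_
  have h1 : gam (uI I a u U) x = gam u x := by
    unfold gam uI
    rw [if_neg (h.TI x hx)]
  rw [h1]
  have h2 := hd x hx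
  have h3 := (gam_pos hu x).le
  have h4 := sq_nonneg ‖aa A (uI I a u U) w x‖
  calc gam u x * ff ξ x w * ‖aa A (uI I a u U) w x‖ ^ 2
      ≤ gam u x * dm * ‖aa A (uI I a u U) w x‖ ^ 2 := by gcongr
    _ = _ := by ring

/-- the error due to the near sources -/
theorem near_err (h : Geo A T I O w) (hu : Loss u) (ha : 0 < a) (hg : 0 < g) (hr : 0 < r)
    (hgr : g ≤ r) (ξ : κ' → ι → ℝ) {dm : ℝ} (hd : ∀ x ∈ T, ff ξ x w ≤ dm) (hd0 : 0 ≤ dm) (ze : ℝ)
    (U : ι → ℝ) :
    8 * (∑ x ∈ T, gam u x * ff ξ x w * ‖aa A (uI I a u U) w x‖ ^ 2) *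
      ‖SL.Rt g r (-(yy A (uI I a u U) w ze a))‖ ≤ 8800 * dm := by
  have hL := loss_uI hu ha I U
  have h1 := near_le h hu ha ξ hd hd0 U
  set y := yy A (uI I a u U) w ze a with hy
  have hyi : 0 < y.im := yy_im_pos h.symm (hL.off w) ze ha
  have hyi2 : (zz A (uI I a u U) w).im ≤ y.im := by
    rw [hy, yy_im]; linarith
  have hs : (-y).im < 0 := by simp; exact hyi
  have h2 := SL.Rt_le hg hr hgr hs
  have h3 : (y.im + g) ^ 2 ≤ (‖-y‖ + r) ^ 2 := by
    apply pow_le_pow_left₀ (by linarith)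
    rw [norm_neg]
    have := (le_abs_self y.im).trans (Complex.abs_im_le_norm y)
    linarith
  have h4 : 0 < (y.im + g) ^ 2 := by positivity
  have h5 : ‖SL.Rt g r (-y)‖ ≤ 4400 * g / (y.im + g) ^ 2 := by
    refine h2.trans ?_
    exact div_le_div_of_nonneg_left (by positivity) h4 h3
  have h6 : 0 ≤ ∑ x ∈ T, gam u x * ff ξ x w * ‖aa A (uI I a u U) w x‖ ^ 2 :=
    Finset.sum_nonneg fun x _ => mul_nonneg (mul_nonneg (gam_pos hu x).le (ff_nonneg ξ x w))
      (sq_nonneg _)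
  have h7 : dm * (zz A (uI I a u U) w).im ≤ dm * y.im := mul_le_mul_of_nonneg_left hyi2 hd0
  calc 8 * (∑ x ∈ T, gam u x * ff ξ x w * ‖aa A (uI I a u U) w x‖ ^ 2) * ‖SL.Rt g r (-y)‖
      ≤ 8 * (dm * y.im) * (4400 * g / (y.im + g) ^ 2) := by
        have := norm_nonneg (SL.Rt g r (-y))
        have := h1.trans h7
        have : 0 ≤ dm * y.im := by positivity
        gcongr
    _ = 35200 * dm * (y.im * g / (y.im + g) ^ 2) := by ring
    _ ≤ 35200 * dm * (1 / 4) := by
        have : y.im * g / (y.im + g) ^ 2 ≤ 1 / 4 := by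
          rw [div_le_iff₀ h4]
          nlinarith [sq_nonneg (y.im - g)]
        have hd' : 0 ≤ 35200 * dm := by positivity
        exact mul_le_mul_of_nonneg_left this hd'
    _ = 8800 * dm := by ring

/-- `|Rt|` against the share kernel -/
theorem Rt_kernel (hg : 0 < g) (hr : 0 < r) (hgr : g ≤ r) {y : ℂ} (hy : 0 < y.im) :
    ‖SL.Rt g r (-y)‖ ≤ 4400 * g / ‖y + g * Complex.I‖ ^ 2 := by
  have hs : (-y).im < 0 := by simp; exact hy
  have h2 : ‖y + g * Complex.I‖ ≤ ‖-y‖ + r := by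
    refine (norm_add_le _ _).trans ?_
    rw [norm_neg, norm_mul, Complex.norm_I, mul_one, Complex.norm_real, Real.norm_of_nonneg hg.le]
    linarith
  have hn : 0 < ‖y + g * Complex.I‖ := by
    rw [norm_pos_iff]
    intro h0
    have := congrArg Complex.im h0
    simp at this
    linarith
  refine (SL.Rt_le hg hr hgr hs).trans ?_
  apply div_le_div_of_nonneg_left (by positivity) (by positivity)
  exact pow_le_pow_left₀ hn.le h2 2

theorem continuous_uI (I : Finset ι) (a : ℝ) (u : ι → ℂ) (lw : ℝ) (mid : ι → ℝ) :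
    Continuous fun v : I → ℝ => uI I a u (Uv I lw mid v) := by
  refine continuous_pi fun x => ?_
  unfold uI
  by_cases hx : x ∈ I
  · simp only [if_pos hx]
    refine (Complex.continuous_ofReal.comp ?_).sub continuous_const
    unfold Uv
    simp only [dif_pos hx]
    exact continuous_const.add (continuous_const.mul (continuous_apply _))
  · simp only [if_neg hx]
    exact continuous_const

theorem continuous_share (h : Geo A T I O w) (hu : Loss u) (ha : 0 < a) (ξ : κ' → ι → ℝ) (lw : ℝ)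
    (mid : ι → ℝ) :
    Continuous fun v : I → ℝ => share A ξ (uI I a u (Uv I lw mid v)) w := by
  have hc := continuous_uI I a u lw mid
  have hG : ∀ x, Continuous fun v : I → ℝ => GM A (uI I a u (Uv I lw mid v)) x w := by
    intro x
    rw [continuous_iff_continuousAt]
    intro v
    have h1 := continuousAt_GM h.symm (loss_uI hu ha I (Uv I lw mid v)) x w
    exact ContinuousAt.comp (g := fun q : ι → ℂ => GM A q x w)
      (f := fun v : I → ℝ => uI I a u (Uv I lw mid v)) h1 hc.continuousAt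
  have hgam : ∀ x, Continuous fun v : I → ℝ => gam (uI I a u (Uv I lw mid v)) x := by
    intro x
    unfold gam
    exact (Complex.continuous_im.comp ((continuous_apply x).comp hc)).neg
  unfold share
  refine (continuous_const.mul (hgam w)).mul (continuous_finsetSum _ fun x _ => ?_)
  exact ((hgam x).mul continuous_const).mul ((hG x).norm.pow 2)

end far

/-- THE BRIDGE FOR ONE BLOCK -/
theorem one_block (κ : ℕ) : ∃ C : ℕ, ∀ {ι κ' : Type} [Fintype ι] [DecidableEq ι] [Fintype κ']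
    {A : Matrix ι ι ℝ} {T I O : Finset ι} {w : ι} {u : ι → ℂ} {a g r lw : ℝ},
    Geo A T I O w → Loss u → 0 < a → 0 < g → 0 < lw → 0 < r → g ≤ r → ∀ (n : ℕ), 2 ≤ n →
    I.card ≤ n → 6 * (g * (n : ℝ) ^ C) ≤ r → (∀ l ∈ I, ‖phc A T w u l‖ ^ 2 ≤ g * lw) →
    ∀ (ze : ℝ), ‖zec A T w u - (ze : ℂ)‖ + a ≤ g / 8 →
    u w = (ze : ℂ) - ((g + a : ℝ) : ℂ) * Complex.I →
    ∀ (ξ : κ' → ι → ℝ) (dm : ℝ), 0 ≤ dm → (∀ x ∈ T, ff ξ x w ≤ dm) → ∀ (mid : ι → ℝ),
    ∫ v, 8 * XX A ξ (uI I a u (Uv I lw mid v)) w *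
        ‖SL.Rt g r (-(yy A (uI I a u (Uv I lw mid v)) w ze a))‖ ∂(LL.MU I) ≤
      ∫ v, ((281600 * ((n : ℝ) ^ κ)⁻¹ + 15120 * (g * (n : ℝ) ^ C / r) ^ 3) *
        share A ξ (uI I a u (Uv I lw mid v)) w + 8800 * dm) ∂(LL.MU I) := by
  obtain ⟨C, hC⟩ := core κ
  refine ⟨C, ?_⟩
  intro ι κ' _ _ _ A T I O w u a g r lw h hu ha hg hl hr hgr n hn hcard hsm hp ze hze huw ξ dm hd0
    hd mid
  have hz : (zec A T w u).im ≤ g / 8 := by
    have h1 := Complex.abs_im_le_norm (zec A T w u - (ze : ℂ))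
    have h2 := le_abs_self (zec A T w u - (ze : ℂ)).im
    have h3 : (zec A T w u - (ze : ℂ)).im = (zec A T w u).im := by simp
    rw [h3] at h1 h2
    linarith
  set B := blk h hu ha hg hl mid hp hz with hB
  set ρ : ℂ := zec A T w u - (ze : ℂ) + (a : ℂ) * Complex.I with hρ
  have hρn : ‖ρ‖ ≤ g / 8 := by
    refine (norm_add_le _ _).trans ?_
    rw [norm_mul, Complex.norm_I, mul_one, Complex.norm_real, Real.norm_of_nonneg ha.le]
    exact hze
  have hTT : ∀ v, 2 * (g : ℂ) * B.TT v = zz A (uI I a u (Uv I lw mid v)) w - zec A T w u :=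
    fun v => TT_eq h hu ha hg hl mid v
  have hy : ∀ v, 2 * (g : ℂ) * B.TT v + ρ = yy A (uI I a u (Uv I lw mid v)) w ze a := by
    intro v
    rw [hTT, hρ, yy]
    ring
  have hLu : ∀ v, Loss (uI I a u (Uv I lw mid v)) := fun v => loss_uI hu ha I _
  have hyi : ∀ v, 0 < (yy A (uI I a u (Uv I lw mid v)) w ze a).im := fun v =>
    yy_im_pos h.symm ((hLu v).off w) ze ha
  set s : ℝ := √(g * lw) with hs
  have hs0 : 0 < s := Real.sqrt_pos.mpr (mul_pos hg hl)
  -- the response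
  have hFF : ∀ (ψ : I → ℂ) v, ∑ l : I, ψ l * aa A (uI I a u (Uv I lw mid v)) w l =
      ((2 * s / lw : ℝ) : ℂ) * B.FF ψ v := by
    intro ψ v
    have h1 := resp_eq h hu ha hl mid ψ ((s : ℝ) : ℂ) v
    have h2 : B.FF ψ v = ((lw / 2 : ℝ) : ℂ) / ((s : ℝ) : ℂ) *
        ∑ l : I, ψ l * aa A (uI I a u (Uv I lw mid v)) w l := h1
    rw [h2]
    have hsc : ((s : ℝ) : ℂ) ≠ 0 := by exact_mod_cast hs0.ne'
    have hlc : (lw : ℂ) ≠ 0 := by exact_mod_cast hl.ne'
    push_cast
    field_simp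
  set c : ι → ℝ := fun x => (if x ∈ I then a else gam u x) * ff ξ x w * (2 * s / lw) ^ 2 with hc
  have hc0 : ∀ x, 0 ≤ c x := by
    intro x
    have h1 : 0 ≤ (if x ∈ I then a else gam u x) := by
      split_ifs
      · exact ha.le
      · exact (gam_pos hu x).le
    exact mul_nonneg (mul_nonneg h1 (ff_nonneg ξ x w)) (sq_nonneg _)
  have hfar : ∀ v, ∑ x ∈ I ∪ O, (if x ∈ I then a else gam u x) * ff ξ x w *
      ‖aa A (uI I a u (Uv I lw mid v)) w x‖ ^ 2 =
      ∑ x ∈ I ∪ O, c x * ‖B.FF (psi A I O u x) v‖ ^ 2 := by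
    intro v
    refine Finset.sum_congr rfl fun x hx => ?_
    have h1 := eq_O h hu ha (Uv I lw mid v) (x := x) (Finset.mem_union.mp hx)
    have h2 : 0 ≤ 2 * s / lw := by positivity
    rw [h1, hFF, norm_mul, Complex.norm_real, Real.norm_of_nonneg h2]
    simp only [hc]
    ring
  have hcore := hC I B n hn (by rw [Fintype.card_coe]; exact hcard) g a r ρ hg ha.le hgr hρn
    (fun v => by rw [hy]; exact hyi v) hsm ι (I ∪ O) c (fun x => psi A I O u x) hc0
  simp_rw [hy, ← hfar] at hcore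
  set e : ℝ := 281600 * ((n : ℝ) ^ κ)⁻¹ + 15120 * (g * (n : ℝ) ^ C / r) ^ 3 with he
  have he0 : 0 ≤ e := by positivity
  set Y : (I → ℝ) → ℂ := fun v => yy A (uI I a u (Uv I lw mid v)) w ze a with hYd
  set Xf : (I → ℝ) → ℝ := fun v => ∑ x ∈ I ∪ O, (if x ∈ I then a else gam u x) * ff ξ x w *
      ‖aa A (uI I a u (Uv I lw mid v)) w x‖ ^ 2 with hXf
  set Xn : (I → ℝ) → ℝ := fun v => ∑ x ∈ T, gam u x * ff ξ x w *
      ‖aa A (uI I a u (Uv I lw mid v)) w x‖ ^ 2 with hXn
  have hXs : ∀ v, XX A ξ (uI I a u (Uv I lw mid v)) w = Xn v + Xf v := fun v =>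
    XX_split h ξ (Uv I lw mid v)
  have hXf0 : ∀ v, 0 ≤ Xf v := by
    intro v
    simp only [hXf]
    rw [hfar v]
    exact Finset.sum_nonneg fun x _ => mul_nonneg (hc0 x) (sq_nonneg _)
  have hXn0 : ∀ v, 0 ≤ Xn v := fun v =>
    Finset.sum_nonneg fun x _ => mul_nonneg (mul_nonneg (gam_pos hu x).le (ff_nonneg ξ x w))
      (sq_nonneg _)
  have hYp : ∀ v, 0 < ‖Y v + g * Complex.I‖ := by
    intro v
    rw [norm_pos_iff]
    intro h0
    have h1 := congrArg Complex.im h0
    have h2 := hyi v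
    simp only [Complex.add_im, Complex.mul_im, Complex.ofReal_re, Complex.I_im, mul_one,
      Complex.ofReal_im, Complex.I_re, mul_zero, add_zero, Complex.zero_im] at h1
    linarith
  -- the share
  have hshare : ∀ v, share A ξ (uI I a u (Uv I lw mid v)) w =
      2 * (g + a) * ((Xn v + Xf v) / ‖Y v + g * Complex.I‖ ^ 2) := by
    intro v
    have h1 := share_act h.symm ((hLu v).off w) ξ ze ha hg.le
    have h2 : Function.update (uI I a u (Uv I lw mid v)) w
        ((ze : ℂ) - (g : ℂ) * Complex.I - (a : ℂ) * Complex.I) = uI I a u (Uv I lw mid v) := by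
      have h3 : (ze : ℂ) - (g : ℂ) * Complex.I - (a : ℂ) * Complex.I =
          uI I a u (Uv I lw mid v) w := by
        unfold uI
        rw [if_neg h.wI, huw]
        push_cast
        ring
      rw [h3, Function.update_eq_self]
    rw [h2, hXs] at h1
    exact h1
  have hYc : Continuous Y := by
    have : Y = fun v => 2 * (g : ℂ) * B.TT v + ρ := by
      funext v
      rw [hy]
    rw [this]
    exact (continuous_const.mul B.continuous_TT).add continuous_const
  have hXfc : Continuous Xf := by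
    have : Xf = fun v => ∑ x ∈ I ∪ O, c x * ‖B.FF (psi A I O u x) v‖ ^ 2 := funext hfar
    rw [this]
    exact continuous_finsetSum _ fun x _ => continuous_const.mul
      ((B.continuous_FF (psi A I O u x)).norm.pow 2)
  have hshf : Integrable (fun v => 2 * (g + a) * (Xf v / ‖Y v + g * Complex.I‖ ^ 2))
      (LL.MU I) := integrable_of_continuous (continuous_const.mul
        (hXfc.div ((hYc.add continuous_const).norm.pow 2) fun v => (pow_pos (hYp v) 2).ne'))
  have hsh : Integrable (fun v => share A ξ (uI I a u (Uv I lw mid v)) w) (LL.MU I) :=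
    integrable_of_continuous (continuous_share h hu ha ξ lw mid)
  -- the far error is integrable
  have hRm : Measurable fun v => ‖SL.Rt g r (-(Y v))‖ := by
    have h1 := (WO.Sys.measurable_Rt r).comp
      ((measurable_const (a := g)).prodMk hYc.measurable.neg)
    exact h1.norm
  have herf : Integrable (fun v => 8 * Xf v * ‖SL.Rt g r (-(Y v))‖) (LL.MU I) := by
    refine (hshf.const_mul 17600).mono' ((hXfc.measurable.const_mul 8).mul hRm).aestronglyMeasurable
      (Filter.Eventually.of_forall fun v => ?_)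
    have h1 := Rt_kernel hg hr hgr (hyi v)
    have h2 := hXf0 v
    have h3 := hYp v
    rw [Real.norm_of_nonneg (by positivity)]
    calc 8 * Xf v * ‖SL.Rt g r (-(Y v))‖ ≤
          8 * Xf v * (4400 * g / ‖Y v + g * Complex.I‖ ^ 2) := by gcongr
      _ = 17600 * (2 * g * (Xf v / ‖Y v + g * Complex.I‖ ^ 2)) := by ring
      _ ≤ 17600 * (2 * (g + a) * (Xf v / ‖Y v + g * Complex.I‖ ^ 2)) := by
          gcongr
          linarith
  -- conclusion
  have step1 : ∫ v, 8 * XX A ξ (uI I a u (Uv I lw mid v)) w * ‖SL.Rt g r (-(Y v))‖ ∂(LL.MU I) ≤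
      ∫ v, (8 * Xf v * ‖SL.Rt g r (-(Y v))‖ + 8800 * dm) ∂(LL.MU I) := by
    refine integral_mono_of_nonneg (Filter.Eventually.of_forall fun v => ?_)
      (herf.add (integrable_const _)) (Filter.Eventually.of_forall fun v => ?_)
    · simp only [Pi.zero_apply]
      rw [hXs]
      have := hXf0 v
      have := hXn0 v
      positivity
    · simp only
      rw [hXs]
      have h1 := near_err h hu ha hg hr hgr ξ hd hd0 ze (Uv I lw mid v)
      have h2 : 8 * Xn v * ‖SL.Rt g r (-(Y v))‖ ≤ 8800 * dm := h1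
      linarith
  refine step1.trans ?_
  rw [integral_add herf (integrable_const _), integral_add (hsh.const_mul _) (integrable_const _)]
  refine add_le_add ?_ le_rfl
  refine hcore.trans ?_
  have h3 : ∫ v, e * share A ξ (uI I a u (Uv I lw mid v)) w ∂(LL.MU I) =
      e * ∫ v, share A ξ (uI I a u (Uv I lw mid v)) w ∂(LL.MU I) := integral_const_mul _ _
  rw [h3]
  refine mul_le_mul_of_nonneg_left ?_ he0
  refine integral_mono hshf hsh fun v => ?_
  simp only
  rw [hshare]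
  have h1 := hYp v
  have h2 := hXn0 v
  gcongr
  linarith

end Pool.Agent.Lib.MP_562b47_mp.LB
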