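import Pool.Agent.Lib.MP_562b47_mp.WO.Basic
import Pool.Agent.Lib.MP_562b47_mp.EC.Small

/-!
MP_562b47, LB-Pert: the complex coupling `phc` and the complex resonant value `zec` (background `a` in
the inner block `T`) are close to the real ones `ph`, `ze`, if `a` is small compared with the real Green
function `RS` of the block.

Let `k ≥ card T`, `|RS x y| ≤ B`, `2 a k B ≤ 1`.  `RC - RS = i a RC RS` on `T` (both are inverses of
`HS - i a` resp. `HS`), so `D := max |RC - RS|` satisfies `D ≤ a k (B + D) B`, `D ≤ 2 a k B²`.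
-/

open Matrix Finset

set_option linter.unusedSectionVars false

namespace Pool.Agent.Lib.MP_562b47_mp.LB

open Pool.Agent.Lib.MP_562b47_mp.AL Pool.Agent.Lib.MP_562b47_mp Pool.Agent.Lib.MP_562b47_mp.WO
open Pool.Agent.Lib.MP_562b47_mp.EC

variable {ι : Type*} [Fintype ι] [DecidableEq ι] {A : Matrix ι ι ℝ} {T : Finset ι} {V : ι → ℝ}

theorem RC_sub_le (hA : A.IsSymm) (hV : (HS A T V).det ≠ 0) {a B k : ℝ} (ha : 0 < a) (hB : 0 ≤ B)
    (hk : (T.card : ℝ) ≤ k) (hRS : ∀ x y, |RS A T V x y| ≤ B) (hs : 2 * a * k * B ≤ 1) (x y : ι) :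
    ‖RC A T (fun x => (V x : ℂ) - (a : ℂ) * Complex.I) x y - (RS A T V x y : ℂ)‖ ≤
      2 * a * k * B ^ 2 := by
  have h1 : a * T.card * B ≤ 1 / 2 := by
    have : a * T.card * B ≤ a * k * B := by gcongr
    linarith
  have h := EC.RC_sub_le hA ha hV hRS h1 x y
  refine (h : ‖RC A T (fun x => (V x : ℂ) - (a : ℂ) * Complex.I) x y - (RS A T V x y : ℂ)‖ ≤ _).trans ?_
  gcongr

private theorem form_le (hA : A.IsSymm) {ε q : ℝ} (hε : 0 ≤ ε)
    (hq : ∀ x, x ∉ T → ∑ y ∈ T, |A x y| ≤ q) {w x : ι} (hw : w ∉ T) (hx : x ∉ T)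
    (F : ι → ι → ℂ) (hF : ∀ y y', ‖F y y'‖ ≤ ε) (hFl : ∀ y y', y ∉ T → F y y' = 0)
    (hFr : ∀ y y', y' ∉ T → F y y' = 0) :
    ‖∑ y, ∑ y', (A w y : ℂ) * F y y' * (A y' x : ℂ)‖ ≤ ε * q ^ 2 := by
  have hq0 : 0 ≤ q := (Finset.sum_nonneg fun y _ => abs_nonneg (A w y)).trans (hq w hw)
  have e1 : ∑ y, ∑ y', (A w y : ℂ) * F y y' * (A y' x : ℂ) =
      ∑ y ∈ T, ∑ y' ∈ T, (A w y : ℂ) * F y y' * (A y' x : ℂ) := by
    rw [← Finset.sum_subset (Finset.subset_univ T)]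
    · refine Finset.sum_congr rfl fun y _ => ?_
      rw [← Finset.sum_subset (Finset.subset_univ T)]
      intro y' _ hy'
      rw [hFr y y' hy', mul_zero, zero_mul]
    · intro y _ hy
      refine Finset.sum_eq_zero fun y' _ => ?_
      rw [hFl y y' hy, mul_zero, zero_mul]
  rw [e1]
  calc ‖∑ y ∈ T, ∑ y' ∈ T, (A w y : ℂ) * F y y' * (A y' x : ℂ)‖
      ≤ ∑ y ∈ T, ∑ y' ∈ T, |A w y| * ε * |A y' x| := by
        refine (norm_sum_le _ _).trans (Finset.sum_le_sum fun y _ => ?_)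
        refine (norm_sum_le _ _).trans (Finset.sum_le_sum fun y' _ => ?_)
        rw [norm_mul, norm_mul, Complex.norm_real, Complex.norm_real, Real.norm_eq_abs,
          Real.norm_eq_abs]
        have := hF y y'
        gcongr
    _ = (∑ y ∈ T, |A w y|) * ε * ∑ y' ∈ T, |A y' x| := by
        rw [Finset.sum_mul, Finset.sum_mul]
        refine Finset.sum_congr rfl fun y _ => ?_
        rw [Finset.mul_sum]
    _ ≤ q * ε * q := by
        have h2 : ∑ y' ∈ T, |A y' x| ≤ q := by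
          have : ∀ y', A y' x = A x y' := fun y' => hA.apply x y'
          simp_rw [this]
          exact hq x hx
        have h3 := hq w hw
        gcongr
    _ = ε * q ^ 2 := by ring

/-- `q` = bound of the row sums of `A` between `x ∉ T` and `T` -/
theorem phc_sub_le (hA : A.IsSymm) (hV : (HS A T V).det ≠ 0) {a B k q : ℝ} (ha : 0 < a) (hB : 0 ≤ B)
    (hk : (T.card : ℝ) ≤ k) (hRS : ∀ x y, |RS A T V x y| ≤ B) (hs : 2 * a * k * B ≤ 1)
    (hq : ∀ x, x ∉ T → ∑ y ∈ T, |A x y| ≤ q) {w x : ι} (hw : w ∉ T) (hx : x ∉ T) :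
    ‖phc A T w (fun x => (V x : ℂ) - (a : ℂ) * Complex.I) x -
      ((-∑ y, ∑ y', A w y * RS A T V y y' * A y' x : ℝ) : ℂ)‖ ≤ 2 * a * k * B ^ 2 * q ^ 2 := by
  have hk0 : 0 ≤ k := (Nat.cast_nonneg _).trans hk
  have h1 : phc A T w (fun x => (V x : ℂ) - (a : ℂ) * Complex.I) x -
      ((-∑ y, ∑ y', A w y * RS A T V y y' * A y' x : ℝ) : ℂ) =
      -∑ y, ∑ y', (A w y : ℂ) * (RC A T (fun x => (V x : ℂ) - (a : ℂ) * Complex.I) y y' -
        (RS A T V y y' : ℂ)) * (A y' x : ℂ) := by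
    unfold phc
    push_cast
    simp_rw [mul_sub, sub_mul, Finset.sum_sub_distrib]
    ring
  rw [h1, norm_neg]
  refine form_le hA (by positivity) hq hw hx _
    (fun y y' => RC_sub_le hA hV ha hB hk hRS hs y y') ?_ ?_
  · intro y y' hy
    rw [RC_left A _ hy, RS_left A V hy, Complex.ofReal_zero, sub_zero]
  · intro y y' hy'
    rw [RC_right A _ y hy', RS_right A V y hy', Complex.ofReal_zero, sub_zero]

theorem zec_sub_le (hA : A.IsSymm) (hV : (HS A T V).det ≠ 0) {a B k q : ℝ} (ha : 0 < a) (hB : 0 ≤ B)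
    (hk : (T.card : ℝ) ≤ k) (hRS : ∀ x y, |RS A T V x y| ≤ B) (hs : 2 * a * k * B ≤ 1)
    (hq : ∀ x, x ∉ T → ∑ y ∈ T, |A x y| ≤ q) {w : ι} (hw : w ∉ T) :
    ‖zec A T w (fun x => (V x : ℂ) - (a : ℂ) * Complex.I) -
      ((-(A w w) + ∑ y, ∑ y', A w y * RS A T V y y' * A y' w : ℝ) : ℂ)‖ ≤
      2 * a * k * B ^ 2 * q ^ 2 := by
  have hk0 : 0 ≤ k := (Nat.cast_nonneg _).trans hk
  have h1 : zec A T w (fun x => (V x : ℂ) - (a : ℂ) * Complex.I) -
      ((-(A w w) + ∑ y, ∑ y', A w y * RS A T V y y' * A y' w : ℝ) : ℂ) =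
      ∑ y, ∑ y', (A w y : ℂ) * (RC A T (fun x => (V x : ℂ) - (a : ℂ) * Complex.I) y y' -
        (RS A T V y y' : ℂ)) * (A y' w : ℂ) := by
    unfold zec
    push_cast
    simp_rw [mul_sub, sub_mul, Finset.sum_sub_distrib]
    ring
  rw [h1]
  refine form_le hA (by positivity) hq hw hw _
    (fun y y' => RC_sub_le hA hV ha hB hk hRS hs y y') ?_ ?_
  · intro y y' hy
    rw [RC_left A _ hy, RS_left A V hy, Complex.ofReal_zero, sub_zero]
  · intro y y' hy'
    rw [RC_right A _ y hy', RS_right A V y hy', Complex.ofReal_zero, sub_zero]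

end Pool.Agent.Lib.MP_562b47_mp.LB
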